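import Pool.Agent.H.MP_a163f2_lc.E.E0

/-!
# Block E, part 1: to be coded is a Sigma-1-3 property
-/

set_option autoImplicit false
set_option linter.unusedSectionVars false

namespace Pool.Agent.H.MP_a163f2_lc

open Pool.Agent.H.MP_07d118_lc

universe u v

/-! ### The condition that almost all initial segments of `x` are outside of the set of `y` -/

/-- `y` has the value `1` at the codes of only finitely many initial segments of `x` -/
def E1_fin (y x : ℕ → ℕ) : Prop := ∃ N, ∀ k, y (cd x k) = 1 → k < N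

theorem E1_ini_length (x : ℕ → ℕ) (k : ℕ) : (ini x k).length = k := by simp [ini]

theorem E1_fin_iff (y x : ℕ → ℕ) : (fset y ∩ {m | Pre x m}).Finite ↔ E1_fin y x := by
  constructor
  · intro h
    obtain ⟨N, hN⟩ := (h.image List.length).bddAbove
    refine ⟨N + 1, fun k hk => ?_⟩
    have h1 : ini x k ∈ fset y ∩ {m | Pre x m} := by
      refine ⟨hk, ?_⟩
      show ini x (ini x k).length = ini x k
      rw [E1_ini_length]
    have h2 := hN (Set.mem_image_of_mem List.length h1)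
    rw [E1_ini_length] at h2
    omega
  · rintro ⟨N, hN⟩
    refine ((Set.finite_lt_nat N).image (ini x)).subset ?_
    rintro m ⟨h1, h2⟩
    have h2' : ini x m.length = m := h2
    refine ⟨m.length, hN _ ?_, h2'⟩
    show y (Encodable.encode (ini x m.length)) = 1
    rw [h2']
    exact h1

theorem E1_fin_sig {R : Set (ℕ → ℕ)} (hR : RC R) {F G : (ℕ → ℕ) → ℕ → ℕ} (hF : CF R F)
    (hG : CF R G) : SigP R 1 (fun t => E1_fin (F t) (G t)) := by
  have h1 : SigP R 1 (fun z => ∀ k, F (tl z) (cd (G (tl z)) k) = 1 → k < z 0) := by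
    refine SigP.of_pi hR ?_
    refine PiP.allN hR (P := fun k z => F (tl z) (cd (G (tl z)) k) = 1 → k < z 0) ?_
    -- the variable is now `z'` with `z' 0 = k`, `tl z' = z`
    have ht := CF.tl hR (CF.id' hR)
    have htt := CF.tl hR ht
    have e1 : CF R (fun x (k : ℕ) => cd (G (tl (tl x))) k) :=
      CF.real hR (P3_cd hR) (CF.real hR hG htt)
    have e2 : CF R (fun (x : ℕ → ℕ) (_ : Unit) => x 0) := P3c_head hR (CF.id' hR) 0
    have e3 := P3_val hR e1 e2
    have e4 := P3_val hR (CF.real hR hF htt) e3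
    have e5 : CF R (fun (x : ℕ → ℕ) (_ : Unit) => tl x 0) := P3c_head hR ht 0
    have hp : RF R (fun p : ℕ × ℕ => Nat.pair p.1 p.2) :=
      RF.of_primrec hR (Primrec₂.natPair.comp Primrec.fst Primrec.snd)
    have e6 := CF.comp2 hR hp e4 (CF.comp2 hR hp e2 e5)
    have hQ : RP R (fun n : ℕ => ¬ (n.unpair.1 = 1 → n.unpair.2.unpair.1 < n.unpair.2.unpair.2)) := by
      have u1 : RF R (fun n : ℕ => n.unpair.1) :=
        RF.of_primrec hR (Primrec.fst.comp Primrec.unpair)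
      have u2 : RF R (fun n : ℕ => n.unpair.2) :=
        RF.of_primrec hR (Primrec.snd.comp Primrec.unpair)
      have q1 : RP R (fun n : ℕ => n.unpair.1 = 1) := RP.eq hR u1 (RF.const hR 1)
      have q2 : RP R (fun n : ℕ => n.unpair.2.unpair.1 < n.unpair.2.unpair.2) :=
        RP.lt hR (RF.comp hR u1 u2) (RF.comp hR u2 u2)
      have q3 := RP.and hR q1 (RP.not hR q2)
      have e : (fun n : ℕ => ¬ (n.unpair.1 = 1 → n.unpair.2.unpair.1 < n.unpair.2.unpair.2)) =
          fun n : ℕ => n.unpair.1 = 1 ∧ ¬ n.unpair.2.unpair.1 < n.unpair.2.unpair.2 := by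
        funext n
        exact propext Classical.not_imp
      rw [e]
      exact q3
    have h2 := P3a_clopen hR hQ 0 e6
    refine SigP.congr h2 fun x _ => ?_
    simp only [Nat.unpair_pair]
  exact (SigP.exN hR (P := fun N t => ∀ k, F t (cd (G t) k) = 1 → k < N) h1)

/-! ### Clopen sets -/

/-- the number codes a pair of a code of a clopen set and of one of its basic open sets -/
def E1_Q (n : ℕ) : Prop := ∃ h : Hc, Encodable.encode h = n.unpair.1 ∧
  ∃ l : List ℕ, Encodable.encode l = n.unpair.2 ∧ ∃ i : ℕ, h.1[i]? = some l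

/-- the real `z` is in the clopen set with the code with number `n` -/
def E1_cl (n : ℕ) (z : ℕ → ℕ) : Prop := ∃ k, E1_Q (Nat.pair n (cd z k))

theorem E1_cl_iff (h : Hc) (z : ℕ → ℕ) : E1_cl (Encodable.encode h) z ↔ Clo h z := by
  constructor
  · rintro ⟨k, h', hh', l, hl, i, hi⟩
    rw [Nat.unpair_pair] at hh' hl
    have h1 : h' = h := Encodable.encode_injective hh'
    have h2 : l = ini z k := Encodable.encode_injective hl
    subst h1
    refine ⟨l, List.mem_of_getElem? hi, ?_⟩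
    show ini z l.length = l
    rw [h2, E1_ini_length]
  · rintro ⟨u, hu, hp⟩
    obtain ⟨i, hi⟩ := List.mem_iff_getElem?.1 hu
    refine ⟨u.length, h, ?_, u, ?_, i, hi⟩
    · rw [Nat.unpair_pair]
    · rw [Nat.unpair_pair]
      show Encodable.encode u = Encodable.encode (ini z u.length)
      have hp' : ini z u.length = u := hp
      rw [hp']

theorem E1_Q_rp {R : Set (ℕ → ℕ)} (hR : RC R) : RP R E1_Q := by
  have u1 : RF R (fun n : ℕ => n.unpair.1) := RF.of_primrec hR (Primrec.fst.comp Primrec.unpair)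
  have u2 : RF R (fun n : ℕ => n.unpair.2) := RF.of_primrec hR (Primrec.snd.comp Primrec.unpair)
  have q1 : RP R (fun p : ((ℕ × Hc) × List ℕ) × ℕ => p.1.1.2.1[p.2]? = some p.1.2) := by
    refine RP.eq hR (RF.of_primrec hR ?_) (RF.of_primrec hR ?_)
    · exact Primrec.list_getElem?.comp
        (Primrec.fst.comp (Primrec.snd.comp (Primrec.fst.comp Primrec.fst))) Primrec.snd
    · exact Primrec.option_some.comp (Primrec.snd.comp Primrec.fst)
  have q2 : RP R (fun p : (ℕ × Hc) × List ℕ => ∃ i : ℕ, p.1.2.1[i]? = some p.2) :=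
    RP.ex hR (P := fun (p : (ℕ × Hc) × List ℕ) (i : ℕ) => p.1.2.1[i]? = some p.2) q1
  have q3 : RP R (fun p : (ℕ × Hc) × List ℕ => Encodable.encode p.2 = p.1.1.unpair.2) :=
    RP.eq hR (RF.of_primrec hR (Primrec.encode.comp Primrec.snd))
      (RF.comp hR u2 (RF.of_primrec hR (Primrec.fst.comp Primrec.fst)))
  have q4 : RP R (fun p : ℕ × Hc => ∃ l : List ℕ, Encodable.encode l = p.1.unpair.2 ∧
      ∃ i : ℕ, p.2.1[i]? = some l) :=
    RP.ex hR (P := fun (p : ℕ × Hc) (l : List ℕ) => Encodable.encode l = p.1.unpair.2 ∧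
      ∃ i : ℕ, p.2.1[i]? = some l) (RP.and hR q3 q2)
  have q5 : RP R (fun p : ℕ × Hc => Encodable.encode p.2 = p.1.unpair.1) :=
    RP.eq hR (RF.of_primrec hR (Primrec.encode.comp Primrec.snd))
      (RF.comp hR u1 (RF.of_primrec hR Primrec.fst))
  exact RP.ex hR (P := fun (n : ℕ) (h : Hc) => Encodable.encode h = n.unpair.1 ∧
      ∃ l : List ℕ, Encodable.encode l = n.unpair.2 ∧ ∃ i : ℕ, h.1[i]? = some l)
    (RP.and hR q5 q4)

theorem E1_cl_sig {R : Set (ℕ → ℕ)} (hR : RC R) {F G : (ℕ → ℕ) → ℕ → ℕ} (hF : CF R F)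
    (hG : CF R G) : SigP R 0 (fun t => E1_cl (F t 0) (G t)) := by
  refine SigP.exN hR (P := fun k t => E1_Q (Nat.pair (F t 0) (cd (G t) k))) ?_
  have ht := CF.tl hR (CF.id' hR)
  have e1 : CF R (fun x (k : ℕ) => cd (G (tl x)) k) :=
    CF.real hR (P3_cd hR) (CF.real hR hG ht)
  have e2 : CF R (fun (x : ℕ → ℕ) (_ : Unit) => x 0) := P3c_head hR (CF.id' hR) 0
  have e3 := P3_val hR e1 e2
  have e4 : CF R (fun (x : ℕ → ℕ) (_ : Unit) => F (tl x) 0) := P3c_head hR (CF.real hR hF ht) 0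
  have hp : RF R (fun p : ℕ × ℕ => Nat.pair p.1 p.2) :=
    RF.of_primrec hR (Primrec₂.natPair.comp Primrec.fst Primrec.snd)
  have e6 := CF.comp2 hR hp e4 e3
  exact P3a_clopen hR (E1_Q_rp hR) 0 e6

variable {M : Type u} [SetStr M] [ZF M] [Std M] {W : Type v} [LinearOrder W] [Cd M W] [Om1 M W]
variable {c : W × Hc → ℕ → ℕ}

/-- the relation `Cod` is Pi-1-2 -/
theorem cod_pi (hc : Luz M W c) (h3 : L3 M W c) {R : Set (ℕ → ℕ)} (hR : RU M W R) :
    PiP R 2 (fun t => Cod c (lf t) (rg t)) := by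
  have hC : RC R := hR.rc
  have hid := CF.id' hC
  -- the set of the codes
  have hS : SigP R 2 (fun u => ∃ (ξ : W) (h : Hc), u 0 = Encodable.encode h ∧
      (fun n => u (n + 1)) = c (ξ, h)) := h3 R hR
  have hP : PiP R 2 (fun u => ¬ ∃ (ξ : W) (h : Hc), u 0 = Encodable.encode h ∧
      (fun n => u (n + 1)) = c (ξ, h)) := PiP.of_not hS
  have p1 : PiP R 2 (fun z => ¬ ∃ (ξ : W) (h : Hc), rg z 0 = Encodable.encode h ∧
      (fun n => rg z (n + 1)) = c (ξ, h)) := PiP.subst hC hP (CF.rg hC hid)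
  have hll := CF.lf hC (CF.lf hC hid)
  have hrl := CF.rg hC (CF.lf hC hid)
  have htr := CF.tl hC (CF.rg hC hid)
  have p2 : SigP R 1 (fun z => E1_fin (lf (lf z)) (tl (rg z))) := E1_fin_sig hC hll htr
  have p3 : SigP R 0 (fun z => E1_cl (rg z 0) (rg (lf z))) := E1_cl_sig hC (CF.rg hC hid) hrl
  have p2a : PiP R 2 (fun z => E1_fin (lf (lf z)) (tl (rg z))) := PiP.of_sig hC p2
  have p2b : PiP R 2 (fun z => ¬ E1_fin (lf (lf z)) (tl (rg z))) :=
    PiP.mono hC (PiP.of_not p2) (by omega)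
  have p3a : PiP R 2 (fun z => E1_cl (rg z 0) (rg (lf z))) :=
    PiP.mono hC (PiP.of_sig hC p3) (by omega)
  have p3b : PiP R 2 (fun z => ¬ E1_cl (rg z 0) (rg (lf z))) :=
    PiP.mono hC (PiP.of_not p3) (by omega)
  have p4 := PiP.or hC p1 (PiP.or hC (PiP.and hC p2a p3a) (PiP.and hC p2b p3b))
  have p5 := PiP.allR hC (P := fun t u => (¬ ∃ (ξ : W) (h : Hc), u 0 = Encodable.encode h ∧
      (fun n => u (n + 1)) = c (ξ, h)) ∨
      ((E1_fin (lf t) (tl u) ∧ E1_cl (u 0) (rg t)) ∨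
        (¬ E1_fin (lf t) (tl u) ∧ ¬ E1_cl (u 0) (rg t)))) p4
  refine PiP.congr p5 fun t _ => ?_
  constructor
  · intro hcod u _
    by_cases hu : ∃ (ξ : W) (h : Hc), u 0 = Encodable.encode h ∧
      (fun n => u (n + 1)) = c (ξ, h)
    · right
      obtain ⟨ξ, h, h1, h2⟩ := hu
      have h4 : tl u = c (ξ, h) := h2
      have h5 := hcod (ξ, h)
      rw [E1_fin_iff, ← h4, ← E1_cl_iff, ← h1] at h5
      by_cases h6 : E1_fin (lf t) (tl u)
      · exact Or.inl ⟨h6, h5.1 h6⟩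
      · exact Or.inr ⟨h6, fun h7 => h6 (h5.2 h7)⟩
    · exact Or.inl hu
  · intro hall κ
    obtain ⟨ξ, h⟩ := κ
    have hm : c (ξ, h) ∈ R :=
      hR.ground _ (IFn.sec (f := fun (κ : W × Hc) (n : ℕ) => c κ n) hc.int (ξ, h)).2
    have hu : cn (Encodable.encode h) (c (ξ, h)) ∈ R := P3c_cn_mem hC _ hm
    have h1 := hall _ hu
    have h2 : tl (cn (Encodable.encode h) (c (ξ, h))) = c (ξ, h) := rfl
    have h3' : cn (Encodable.encode h) (c (ξ, h)) 0 = Encodable.encode h := rfl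
    rw [E1_fin_iff, ← E1_cl_iff]
    rw [h2, h3'] at h1
    rcases h1 with h1 | h1 | h1
    · exact absurd ⟨ξ, h, rfl, rfl⟩ h1
    · exact ⟨fun _ => h1.2, fun _ => h1.1⟩
    · exact ⟨fun h6 => absurd h6 h1.1, fun h6 => absurd h6 h1.2⟩

/-- the set of the coded reals is Sigma-1-3 -/
theorem coded_sig (hc : Luz M W c) (h3 : L3 M W c) {R : Set (ℕ → ℕ)} (hR : RU M W R) :
    SigP R 3 (fun z => ∃ y ∈ R, Cod c y z) := by
  have hC : RC R := hR.rc
  have hid := CF.id' hC
  refine SigP.exR_pi hC (P := fun z y => Cod c y z) ?_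
  have h1 := PiP.subst hC (cod_pi hc h3 hR)
    (CF.jn hC (CF.rg hC hid) (CF.lf hC hid))
  refine PiP.congr h1 fun z _ => ?_
  have e1 : lf (jn (rg z) (lf z)) = rg z := P3c_lf_jn _ _
  have e2 : rg (jn (rg z) (lf z)) = lf z := P3c_rg_jn _ _
  show Cod c (rg z) (lf z) ↔ Cod c (lf (jn (rg z) (lf z))) (rg (jn (rg z) (lf z)))
  rw [e1, e2]

end Pool.Agent.H.MP_a163f2_lc
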