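import Pool.Agent.H.MP_a163f2_lc.P.P3
import Pool.Agent.H.MP_a163f2_lc.PowDefs

/-!
# Finite powers of Baire space
-/

set_option autoImplicit false
set_option linter.unusedSectionVars false

namespace Pool.Agent.H.MP_a163f2_lc

/-! ### Transfer to Baire space -/

/-- the homeomorphism of the power with exponent `m + 1` onto Baire space -/
def tup (m : ℕ) (x : Fin (m + 1) → ℕ → ℕ) : ℕ → ℕ := fun n => x (Fin.ofNat (m + 1) n) (n / (m + 1))

/-- its inverse -/
def utup (m : ℕ) (z : ℕ → ℕ) : Fin (m + 1) → ℕ → ℕ := fun i n => z (n * (m + 1) + i.1)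

theorem tup_utup (m : ℕ) (z : ℕ → ℕ) : tup m (utup m z) = z := by
  funext n
  show z (n / (m + 1) * (m + 1) + n % (m + 1)) = z n
  rw [Nat.div_add_mod']

theorem utup_tup (m : ℕ) (x : Fin (m + 1) → ℕ → ℕ) : utup m (tup m x) = x := by
  funext i n
  show x (Fin.ofNat (m + 1) (n * (m + 1) + i.1)) ((n * (m + 1) + i.1) / (m + 1)) = x i n
  have h1 : Fin.ofNat (m + 1) (n * (m + 1) + i.1) = i := by
    refine Fin.ext ?_
    show (n * (m + 1) + i.1) % (m + 1) = i.1
    rw [Nat.add_comm, Nat.add_mul_mod_self_right, Nat.mod_eq_of_lt i.2]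
  have h2 : (n * (m + 1) + i.1) / (m + 1) = n := by
    rw [Nat.add_comm, Nat.add_mul_div_right _ _ (Nat.succ_pos m), Nat.div_eq_of_lt i.2, zero_add]
  rw [h1, h2]

theorem Pw_tup_inj (m : ℕ) : Function.Injective (tup m) := by
  intro x y h
  rw [← utup_tup m x, h, utup_tup]

/-- the tuple of functionals is a functional -/
theorem Pw_tup {R : Set (ℕ → ℕ)} (hR : RC R) (m : ℕ) {F : Fin (m + 1) → (ℕ → ℕ) → ℕ → ℕ}
    (hF : ∀ i, CF R (F i)) : CF R (fun z (n : ℕ) => tup m (fun i => F i z) n) := by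
  have key : ∀ j ≤ m + 1, CF R (fun z (n : ℕ) =>
      if n % (m + 1) < j then F (Fin.ofNat (m + 1) n) z (n / (m + 1)) else 0) := by
    intro j
    induction j with
    | zero =>
      intro _
      have h1 : CF R (fun _ (_ : ℕ) => 0) := CF.num hR (RF.const hR 0)
      have e : (fun z (n : ℕ) => if n % (m + 1) < 0 then F (Fin.ofNat (m + 1) n) z (n / (m + 1))
          else 0) = fun _ (_ : ℕ) => 0 := by
        funext z n
        exact if_neg (Nat.not_lt_zero _)
      rw [e]
      exact h1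
    | succ j ih =>
      intro hj
      have hP : RP R (fun n : ℕ => n % (m + 1) = j) :=
        RP.eq hR (RF.of_primrec hR (Primrec.nat_mod.comp Primrec.id (Primrec.const (m + 1))))
          (RF.const hR j)
      have hd : RF R (fun n : ℕ => n / (m + 1)) :=
        RF.of_primrec hR (Primrec.nat_div.comp Primrec.id (Primrec.const (m + 1)))
      have h1 := CF.ite hR (P := fun n : ℕ => n % (m + 1) = j) hP
        (CF.par hR (hF ⟨j, hj⟩) hd) (ih (by omega))
      have e : (fun z (n : ℕ) => if n % (m + 1) < j + 1 then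
          F (Fin.ofNat (m + 1) n) z (n / (m + 1)) else 0) =
          fun z (n : ℕ) => if n % (m + 1) = j then F ⟨j, hj⟩ z (n / (m + 1)) else
            if n % (m + 1) < j then F (Fin.ofNat (m + 1) n) z (n / (m + 1)) else 0 := by
        funext z n
        by_cases h2 : n % (m + 1) = j
        · have h3 : Fin.ofNat (m + 1) n = ⟨j, hj⟩ := Fin.ext h2
          rw [if_pos h2, if_pos (by omega), h3]
        · rw [if_neg h2]
          by_cases h3 : n % (m + 1) < j
          · rw [if_pos h3, if_pos (by omega)]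
          · rw [if_neg h3, if_neg (by omega)]
      rw [e]
      exact h1
  have h := key (m + 1) le_rfl
  have e : (fun z (n : ℕ) => if n % (m + 1) < m + 1 then
      F (Fin.ofNat (m + 1) n) z (n / (m + 1)) else 0) =
      fun z (n : ℕ) => tup m (fun i => F i z) n := by
    funext z n
    exact if_pos (Nat.mod_lt _ (Nat.succ_pos m))
  rw [← e]
  exact h

/-- the coordinates of a functional -/
theorem Pw_utup {R : Set (ℕ → ℕ)} (hR : RC R) (m : ℕ) {F : (ℕ → ℕ) → ℕ → ℕ} (hF : CF R F)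
    (i : Fin (m + 1)) : CF R (fun z (n : ℕ) => utup m (F z) i n) :=
  CF.par hR hF (g := fun n : ℕ => n * (m + 1) + i.1) (RF.of_primrec hR
    (Primrec.nat_add.comp (Primrec.nat_mul.comp Primrec.id (Primrec.const (m + 1)))
      (Primrec.const i.1)))

theorem tup_mem {R : Set (ℕ → ℕ)} (hR : RC R) (m : ℕ) (x : Fin (m + 1) → ℕ → ℕ) :
    tup m x ∈ R ↔ x ∈ Pow R (m + 1) := by
  constructor
  · intro h i
    have h1 : utup m (tup m x) i ∈ R :=
      CF.mem hR (F := fun z (n : ℕ) => utup m z i n) (Pw_utup hR m (CF.id' hR) i) h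
    rw [utup_tup] at h1
    exact h1
  · intro h
    have hz : (fun _ => 0 : ℕ → ℕ) ∈ R := hR.prim _ (Nat.Primrec.const 0)
    exact CF.mem hR (F := fun _ (n : ℕ) => tup m (fun i => x i) n)
      (Pw_tup hR m (F := fun i _ n => x i n) fun i => CF.cst hR (h i)) hz

theorem SigM.subset {R : Set (ℕ → ℕ)} {n m : ℕ} {A : Set (Fin m → ℕ → ℕ)} (h : SigM R n m A) :
    A ⊆ Pow R m := by
  cases n with
  | zero =>
    obtain ⟨a, _, rfl⟩ := h
    exact fun x hx => hx.1
  | succ n =>
    obtain ⟨B, _, rfl⟩ := h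
    exact fun x hx => hx.1

theorem Pw_image {R : Set (ℕ → ℕ)} (hR : RC R) (m : ℕ) {A : Set (Fin (m + 1) → ℕ → ℕ)}
    (hA : A ⊆ Pow R (m + 1)) (z : ℕ → ℕ) : z ∈ tup m '' A ↔ z ∈ R ∧ utup m z ∈ A := by
  constructor
  · rintro ⟨x, hx, rfl⟩
    rw [utup_tup]
    exact ⟨(tup_mem hR m x).2 (hA hx), hx⟩
  · rintro ⟨_, h⟩
    exact ⟨_, h, tup_utup m z⟩

theorem Pw_mem_image (m : ℕ) {A : Set (Fin (m + 1) → ℕ → ℕ)} (x : Fin (m + 1) → ℕ → ℕ) :
    tup m x ∈ tup m '' A ↔ x ∈ A := (Pw_tup_inj m).mem_set_image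

/-! ### Codes of initial segments -/

/-- the code of the tuple of initial segments, computed from an initial segment -/
def Pw_G (m : ℕ) (l : List ℕ) : ℕ :=
  Encodable.encode (List.ofFn fun i : Fin (m + 1) =>
    (List.range (l.length / (m + 1))).map fun n => l.getD (n * (m + 1) + i.1) 0)

theorem Pw_G_eq (m k : ℕ) (z : ℕ → ℕ) : Pw_G m (ini z (k * (m + 1))) = cdm (utup m z) k := by
  unfold Pw_G cdm
  have hl : (ini z (k * (m + 1))).length / (m + 1) = k := by
    rw [P3_ini_length, Nat.mul_div_cancel _ (Nat.succ_pos m)]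
  rw [hl]
  congr 1
  refine congrArg List.ofFn (funext fun i => ?_)
  refine List.map_congr_left fun n hn => ?_
  have hn' : n < k := List.mem_range.1 hn
  have h1 : n * (m + 1) + i.1 < k * (m + 1) := by
    have h2 := i.2
    have h3 : (n + 1) * (m + 1) ≤ k * (m + 1) := Nat.mul_le_mul_right _ hn'
    rw [Nat.succ_mul] at h3
    omega
  show (ini z (k * (m + 1))).getD (n * (m + 1) + i.1) 0 = z (n * (m + 1) + i.1)
  unfold ini
  rw [List.getD_eq_getElem?_getD]
  simp [h1]

theorem Pw_G_primrec (m : ℕ) : Primrec (Pw_G m) := by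
  refine Primrec.encode.comp (Primrec.list_ofFn fun i => ?_)
  refine Primrec.list_map (Primrec.list_range.comp (Primrec.nat_div.comp Primrec.list_length
    (Primrec.const (m + 1)))) ?_
  exact (Primrec.list_getD 0).comp Primrec.fst (Primrec.nat_add.comp (Primrec.nat_mul.comp
    Primrec.snd (Primrec.const (m + 1))) (Primrec.const i.1))

/-- the code of an initial segment, computed from the tuple of initial segments -/
def Pw_H (m : ℕ) (L : List (List ℕ)) : ℕ :=
  Encodable.encode ((List.range (L.getD 0 []).length).map fun n =>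
    (L.getD (n % (m + 1)) []).getD (n / (m + 1)) 0)

theorem Pw_getD (m k : ℕ) (x : Fin (m + 1) → ℕ → ℕ) (i : ℕ) (hi : i < m + 1) :
    (List.ofFn fun i => (List.range k).map (x i)).getD i [] =
      (List.range k).map (x ⟨i, hi⟩) := by
  rw [List.getD_eq_getElem _ _ (by rw [List.length_ofFn]; exact hi), List.getElem_ofFn]

theorem Pw_H_eq (m k : ℕ) (x : Fin (m + 1) → ℕ → ℕ) :
    Pw_H m (List.ofFn fun i => (List.range k).map (x i)) = cd (tup m x) k := by
  unfold Pw_H cd
  rw [Pw_getD m k x 0 (Nat.succ_pos m), List.length_map, List.length_range]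
  congr 1
  refine List.map_congr_left fun n hn => ?_
  have hn' : n < k := List.mem_range.1 hn
  rw [Pw_getD m k x (n % (m + 1)) (Nat.mod_lt _ (Nat.succ_pos m))]
  have h1 : n / (m + 1) < k := lt_of_le_of_lt (Nat.div_le_self _ _) hn'
  rw [List.getD_eq_getElem?_getD]
  simp only [List.getElem?_map, List.getElem?_range h1, Option.map_some, Option.getD_some]
  rfl

theorem Pw_H_primrec (m : ℕ) : Primrec (Pw_H m) := by
  refine Primrec.encode.comp (Primrec.list_map (Primrec.list_range.comp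
    (Primrec.list_length.comp ((Primrec.list_getD []).comp Primrec.id (Primrec.const 0)))) ?_)
  exact (Primrec.list_getD 0).comp ((Primrec.list_getD []).comp Primrec.fst
    (Primrec.nat_mod.comp Primrec.snd (Primrec.const (m + 1))))
    (Primrec.nat_div.comp Primrec.snd (Primrec.const (m + 1)))

theorem Pw_zero_mp {R : Set (ℕ → ℕ)} (hR : RC R) (m : ℕ) {a : ℕ → ℕ} (ha : a ∈ R) :
    SigP R 0 (fun z => ∃ k, a (cdm (utup m z) k) ≠ 0) := by
  have hD : RP R (fun l : List ℕ => l.length % (m + 1) = 0 ∧ a (Pw_G m l) ≠ 0) := by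
    refine RP.and hR (RP.eq hR (RF.of_primrec hR (Primrec.nat_mod.comp Primrec.list_length
      (Primrec.const (m + 1)))) (RF.const hR 0)) (RP.not hR ?_)
    exact RP.comp hR (RP.mem hR ha) (RF.of_primrec hR (Pw_G_primrec m))
  refine SigP.congr (SigP.open hR hD) fun z _ => ?_
  constructor
  · rintro ⟨k, hk⟩
    refine ⟨k * (m + 1), ?_, ?_⟩
    · rw [P3_ini_length, Nat.mul_mod_left]
    · rw [Pw_G_eq]
      exact hk
  · rintro ⟨j, h1, h2⟩
    rw [P3_ini_length] at h1
    refine ⟨j / (m + 1), ?_⟩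
    rw [← Pw_G_eq, Nat.div_mul_cancel (Nat.dvd_of_mod_eq_zero h1)]
    exact h2

theorem SigM_iff {R : Set (ℕ → ℕ)} (hR : RC R) (n m : ℕ) {A : Set (Fin (m + 1) → ℕ → ℕ)}
    (hA : A ⊆ Pow R (m + 1)) : SigM R n (m + 1) A ↔ Sig R n (tup m '' A) := by
  induction n generalizing m with
  | zero =>
    constructor
    · rintro ⟨a, ha, hAe⟩
      have h1 := Pw_zero_mp hR m ha
      have e : tup m '' A = {z | z ∈ R ∧ ∃ k, a (cdm (utup m z) k) ≠ 0} := by
        ext z
        rw [Pw_image hR m hA]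
        refine and_congr_right fun hz => ?_
        rw [hAe]
        constructor
        · exact fun h => h.2
        · intro h
          refine ⟨?_, h⟩
          rw [← tup_mem hR, tup_utup]
          exact hz
      rw [e]
      exact h1
    · rintro ⟨a, ha, he⟩
      have hp : Primrec (fun c : ℕ =>
          Pw_H m (((Encodable.decode c : Option (List (List ℕ)))).getD [])) :=
        (Pw_H_primrec m).comp (Primrec.option_getD.comp Primrec.decode (Primrec.const []))
      refine ⟨fun c => a (Pw_H m (((Encodable.decode c : Option (List (List ℕ)))).getD [])),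
        hR.comp a ha _ (P1a_pn hR hp), ?_⟩
      ext x
      rw [← Pw_mem_image m x, he]
      show (tup m x ∈ R ∧ ∃ k, a (cd (tup m x) k) ≠ 0) ↔ x ∈ Pow R (m + 1) ∧ ∃ k,
        a (Pw_H m (((Encodable.decode (cdm x k) : Option (List (List ℕ)))).getD [])) ≠ 0
      rw [tup_mem hR]
      refine and_congr_right fun _ => exists_congr fun k => ?_
      rw [cdm, Encodable.encodek, Option.getD_some, Pw_H_eq]
  | succ n ih =>
    constructor
    · rintro ⟨B, hB, hAe⟩
      have h1 : SigP R n (fun z => z ∈ tup (m + 1) '' B) := by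
        have h2 := (ih (m + 1) (SigM.subset hB)).1 hB
        exact (SigP.iff_Sig (Sig.subset h2)).1 h2
      have hcf : CF R (fun w (n : ℕ) => tup (m + 1) (fun i =>
          (Fin.cons (rg w) (utup m (lf w)) : Fin (m + 2) → ℕ → ℕ) i) n) := by
        refine Pw_tup hR (m + 1) (F := fun i w n =>
          (Fin.cons (rg w) (utup m (lf w)) : Fin (m + 2) → ℕ → ℕ) i n) fun i => ?_
        refine Fin.cases ?_ (fun i => ?_) i
        · exact CF.rg hR (CF.id' hR)
        · exact Pw_utup hR m (F := fun w n => lf w n) (CF.lf hR (CF.id' hR)) i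
      have h3 : SigP R (n + 1) (fun z => ∃ y ∈ R,
          tup (m + 1) (Fin.cons y (utup m z) : Fin (m + 2) → ℕ → ℕ) ∉ tup (m + 1) '' B) := by
        refine SigP.exR_pi hR (P := fun z y =>
          tup (m + 1) (Fin.cons y (utup m z) : Fin (m + 2) → ℕ → ℕ) ∉ tup (m + 1) '' B) ?_
        exact PiP.of_not (SigP.subst hR h1 hcf)
      have e : tup m '' A = {z | z ∈ R ∧ ∃ y ∈ R,
          tup (m + 1) (Fin.cons y (utup m z) : Fin (m + 2) → ℕ → ℕ) ∉ tup (m + 1) '' B} := by
        ext z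
        rw [Pw_image hR m hA]
        refine and_congr_right fun hz => ?_
        have h4 : utup m z ∈ Pow R (m + 1) := by
          rw [← tup_mem hR, tup_utup]
          exact hz
        rw [hAe]
        simp only [Pw_mem_image]
        constructor
        · exact fun h => h.2
        · exact fun h => ⟨h4, h⟩
      rw [e]
      exact h3
    · rintro ⟨B', hB', he⟩
      have h1 : SigP R n (fun z => z ∈ B') := (SigP.iff_Sig (Sig.subset hB')).1 hB'
      have hcf : CF R (fun v (n : ℕ) => jn (tup m (fun i => utup (m + 1) v i.succ))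
          (utup (m + 1) v 0) n) :=
        CF.jn hR (F := fun v n => tup m (fun i => utup (m + 1) v i.succ) n)
          (G := fun v n => utup (m + 1) v 0 n)
          (Pw_tup hR m (F := fun i v n => utup (m + 1) v i.succ n) fun i =>
            Pw_utup hR (m + 1) (F := fun v n => v n) (CF.id' hR) i.succ)
          (Pw_utup hR (m + 1) (F := fun v n => v n) (CF.id' hR) 0)
      have hBs : {w : Fin (m + 2) → ℕ → ℕ | w ∈ Pow R (m + 2) ∧
          jn (tup m (fun i => w i.succ)) (w 0) ∈ B'} ⊆ Pow R (m + 2) := fun w hw => hw.1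
      refine ⟨{w | w ∈ Pow R (m + 2) ∧ jn (tup m (fun i => w i.succ)) (w 0) ∈ B'}, ?_, ?_⟩
      · refine (ih (m + 1) hBs).2 ?_
        have e : tup (m + 1) '' {w : Fin (m + 2) → ℕ → ℕ | w ∈ Pow R (m + 2) ∧
            jn (tup m (fun i => w i.succ)) (w 0) ∈ B'} =
            {v | v ∈ R ∧ jn (tup m (fun i => utup (m + 1) v i.succ)) (utup (m + 1) v 0) ∈ B'} := by
          ext v
          rw [Pw_image hR (m + 1) hBs]
          refine and_congr_right fun hv => ?_
          have h4 : utup (m + 1) v ∈ Pow R (m + 2) := by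
            rw [← tup_mem hR, tup_utup]
            exact hv
          constructor
          · exact fun h => h.2
          · exact fun h => ⟨h4, h⟩
        rw [e]
        exact SigP.subst hR h1 hcf
      · ext x
        rw [← Pw_mem_image m x, he]
        show (tup m x ∈ R ∧ ∃ y ∈ R, jn (tup m x) y ∉ B') ↔ x ∈ Pow R (m + 1) ∧ ∃ y ∈ R,
          ¬ ((Fin.cons y x : Fin (m + 2) → ℕ → ℕ) ∈ Pow R (m + 2) ∧ jn (tup m (fun i =>
            (Fin.cons y x : Fin (m + 2) → ℕ → ℕ) i.succ))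
              ((Fin.cons y x : Fin (m + 2) → ℕ → ℕ) 0) ∈ B')
        rw [tup_mem hR]
        refine and_congr_right fun hx => exists_congr fun y => and_congr_right fun hy => ?_
        have h4 : (Fin.cons y x : Fin (m + 2) → ℕ → ℕ) ∈ Pow R (m + 2) := by
          intro i
          refine Fin.cases ?_ (fun i => ?_) i
          · exact hy
          · exact hx i
        simp only [Fin.cons_succ, Fin.cons_zero]
        exact not_congr ⟨fun h => ⟨h4, h⟩, fun h => h.2⟩

theorem Pw_image_pow {R : Set (ℕ → ℕ)} (hR : RC R) (m : ℕ) : tup m '' Pow R (m + 1) = R := by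
  ext z
  rw [Pw_image hR m (fun _ h => h), ← tup_mem hR, tup_utup]
  exact ⟨fun h => h.1, fun h => ⟨h, h⟩⟩

theorem Pw_image_pre {R : Set (ℕ → ℕ)} (hR : RC R) (m : ℕ) {C : Set (ℕ → ℕ)} (hC : C ⊆ R) :
    tup m '' {x | x ∈ Pow R (m + 1) ∧ tup m x ∈ C} = C := by
  ext z
  rw [Pw_image hR m (fun _ h => h.1)]
  show (z ∈ R ∧ utup m z ∈ Pow R (m + 1) ∧ tup m (utup m z) ∈ C) ↔ z ∈ C
  rw [← tup_mem hR, tup_utup]
  exact ⟨fun h => h.2.2, fun h => ⟨hC h, hC h, h⟩⟩

theorem Pw_diff {R : Set (ℕ → ℕ)} (hR : RC R) (m : ℕ) (A : Set (Fin (m + 1) → ℕ → ℕ)) :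
    tup m '' (Pow R (m + 1) \ A) = R \ tup m '' A := by
  rw [Set.image_sdiff (Pw_tup_inj m), Pw_image_pow hR]

theorem Pw_pi {R : Set (ℕ → ℕ)} (hR : RC R) (n m : ℕ) {A : Set (Fin (m + 1) → ℕ → ℕ)}
    (hA : A ⊆ Pow R (m + 1)) : PiM R n (m + 1) A ↔ PiR R n (tup m '' A) := by
  have h1 : tup m '' A ⊆ R := fun z hz => ((Pw_image hR m hA z).1 hz).1
  have h2 := SigM_iff hR n m (A := Pow R (m + 1) \ A) Set.sdiff_subset
  rw [Pw_diff hR] at h2
  exact ⟨fun h => ⟨h1, h2.1 h.2⟩, fun h => ⟨hA, h2.2 h.2⟩⟩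

theorem SepG_pow {R : Set (ℕ → ℕ)} (hR : RC R) {n : ℕ} (h : Separation R (Sig R n)) (m : ℕ) :
    SepG (Pow R (m + 1)) (SigM R n (m + 1)) := by
  intro A B hA hB hAB
  have hAs := SigM.subset hA
  have hBs := SigM.subset hB
  have hd : Disjoint (tup m '' A) (tup m '' B) := (Set.disjoint_image_iff (Pw_tup_inj m)).2 hAB
  obtain ⟨C, h1, h2, h3, h4⟩ := h _ _ ((SigM_iff hR n m hAs).1 hA) ((SigM_iff hR n m hBs).1 hB) hd
  have hC : C ⊆ R := Sig.subset h1
  have hCs : {x | x ∈ Pow R (m + 1) ∧ tup m x ∈ C} ⊆ Pow R (m + 1) := fun x hx => hx.1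
  refine ⟨{x | x ∈ Pow R (m + 1) ∧ tup m x ∈ C}, ?_, ?_, ?_, ?_⟩
  · rw [SigM_iff hR n m hCs, Pw_image_pre hR m hC]
    exact h1
  · rw [SigM_iff hR n m Set.sdiff_subset, Pw_diff hR, Pw_image_pre hR m hC]
    exact h2
  · intro x hx
    exact ⟨hAs hx, h3 ⟨x, hx, rfl⟩⟩
  · rw [Set.disjoint_left]
    rintro x ⟨_, hx⟩ hxB
    exact Set.disjoint_left.1 h4 hx ⟨x, hxB, rfl⟩

theorem RedG_pow {R : Set (ℕ → ℕ)} (hR : RC R) {n m : ℕ} (h : RedG (PiM R n (m + 1))) :
    Reduction (PiR R n) := by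
  intro A B hA hB
  have hAs : {x | x ∈ Pow R (m + 1) ∧ tup m x ∈ A} ⊆ Pow R (m + 1) := fun x hx => hx.1
  have hBs : {x | x ∈ Pow R (m + 1) ∧ tup m x ∈ B} ⊆ Pow R (m + 1) := fun x hx => hx.1
  have eA := Pw_image_pre hR m hA.1
  have eB := Pw_image_pre hR m hB.1
  obtain ⟨A', B', h1, h2, h3, h4, h5, h6⟩ := h {x | x ∈ Pow R (m + 1) ∧ tup m x ∈ A}
    {x | x ∈ Pow R (m + 1) ∧ tup m x ∈ B}
    ((Pw_pi hR n m hAs).2 (by rw [eA]; exact hA)) ((Pw_pi hR n m hBs).2 (by rw [eB]; exact hB))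
  refine ⟨tup m '' A', tup m '' B', (Pw_pi hR n m h1.1).1 h1, (Pw_pi hR n m h2.1).1 h2, ?_, ?_,
    (Set.disjoint_image_iff (Pw_tup_inj m)).2 h5, ?_⟩
  · rw [← eA]
    exact Set.image_mono h3
  · rw [← eB]
    exact Set.image_mono h4
  · rw [← Set.image_union, h6, Set.image_union, eA, eB]

end Pool.Agent.H.MP_a163f2_lc
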