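import Pool.Agent.H.MP_a163f2_lc.P.P3
import Pool.Agent.H.MP_a163f2_lc.Z.Main

/-!
# Block E, part 5: the reals of a model of ZFC are closed under arithmetic and choice
-/

set_option autoImplicit false
set_option linter.unusedSectionVars false

namespace Pool.Agent.H.MP_a163f2_lc

open Pool.Agent.H.MP_07d118_lc

universe u v

theorem E5_pair_mem_graph {N : Set ZFSet.{0}} (hN : Trans N) [ZF N] {x : ℕ → ℕ} {n k : ℕ} :
    ZFSet.pair (num n) (num k) ∈ graph x ↔ x n = k := by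
  rw [Z.mem_graph]
  constructor
  · rintro ⟨m, hm⟩
    obtain ⟨h1, h2⟩ := ZFSet.pair_inj.1 hm
    obtain rfl := Z.num_inj' hN h1
    exact Z.num_inj' hN h2
  · rintro rfl
    exact ⟨n, rfl⟩

theorem E5_code {N : Set ZFSet.{0}} (hN : Trans N) [ZF N] (n k : ℕ) :
    (opair (nm n) (nm k) : N).1 = ZFSet.pair (num n) (num k) := by
  rw [Z.abs_opair hN, Z.abs_nm hN, Z.abs_nm hN]

/-- The reals of a transitive model are its internal functions. -/
theorem mem_Reals_iff {N : Set ZFSet.{0}} (hN : Trans N) [ZFC N] {x : ℕ → ℕ} :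
    x ∈ Reals N ↔ IF N x := by
  constructor
  · intro h
    refine ⟨⟨graph x, h⟩, fun p => ?_⟩
    obtain ⟨n, k⟩ := p
    show (opair (nm n) (nm k) : N).1 ∈ graph x ↔ x n = k
    rw [E5_code hN]
    exact E5_pair_mem_graph hN
  · rintro ⟨r, hr⟩
    have hd : Df (fun w : Fin 1 → N => (w 0) ∈ r) := Df.mem (DfF.var 0) (DfF.const r)
    have key : graph x = (sep (prod om om) (fun w => w ∈ r) : N).1 := by
      refine ZFSet.ext fun z => ?_
      constructor
      · intro hz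
        obtain ⟨n, rfl⟩ := Z.mem_graph.1 hz
        rw [← E5_code hN]
        have h1 : (opair (nm n) (nm (x n)) : N) ∈ (sep (prod om om) (fun w => w ∈ r) : N) := by
          rw [mem_sep hd]
          exact ⟨opair_mem_prod.2 ⟨nm_mem n, nm_mem _⟩, (hr (n, x n)).2 rfl⟩
        exact h1
      · intro hz
        obtain ⟨w, hw, rfl⟩ := Z.abs_mem hN hz
        rw [mem_sep hd] at hw
        obtain ⟨h1, h2⟩ := hw
        obtain ⟨a, ha, b, hb, rfl⟩ := mem_prod.1 h1
        obtain ⟨n, rfl⟩ := exists_nm ha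
        obtain ⟨k, rfl⟩ := exists_nm hb
        rw [E5_code hN, E5_pair_mem_graph hN]
        exact (hr (n, k)).1 h2
    show graph x ∈ N
    rw [key]
    exact (sep (prod om om) (fun w => w ∈ r) : N).2

section

variable {N : Set ZFSet.{0}} [ZF N]

theorem E5_getD {T : Type v} [Cd N T] {f : T → List ℕ} (hf : IF N f) {g : T → ℕ} (hg : IF N g) :
    IF N (fun t => (f t).getD (g t) 0) :=
  IF.prim2 (F := fun (l : List ℕ) (i : ℕ) => l.getD i 0) (Primrec.list_getD 0) hf hg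

theorem E5_length {T : Type v} [Cd N T] {f : T → List ℕ} (hf : IF N f) :
    IF N (fun t => (f t).length) :=
  IF.comp (IF.prim (Primrec.list_length (α := ℕ))) hf

theorem E5_mod {T : Type v} [Cd N T] {f : T → ℕ} (hf : IF N f) : In N (fun t => f t % 2 = 0) := by
  have h : IF N (fun n : ℕ => n % 2) :=
    IF.prim (Primrec.nat_mod.comp Primrec.id (Primrec.const 2))
  exact In.nat_eq (IF.comp h hf) 0

theorem E5_div {T : Type v} [Cd N T] {f : T → ℕ} (hf : IF N f) : IF N (fun t => f t / 2) := by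
  have h : IF N (fun n : ℕ => n / 2) :=
    IF.prim (Primrec.nat_div.comp Primrec.id (Primrec.const 2))
  exact IF.comp h hf

theorem E5_pred {T : Type v} [Cd N T] {f : T → ℕ} (hf : IF N f) : IF N (fun t => f t - 1) := by
  have h : IF N (fun n : ℕ => n - 1) :=
    IF.prim (Primrec.nat_sub.comp Primrec.id (Primrec.const 1))
  exact IF.comp h hf

theorem E5_jn : IF N (fun z : (IFn N ℕ ℕ × IFn N ℕ ℕ) × ℕ => jn z.1.1.1 z.1.2.1 z.2) := by
  unfold jn
  refine IF.ite (T := (IFn N ℕ ℕ × IFn N ℕ ℕ) × ℕ) (P := fun z => z.2 % 2 = 0)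
    (f := fun z => z.1.1.1 (z.2 / 2)) (g := fun z => z.1.2.1 (z.2 / 2)) (E5_mod IF.snd) ?_ ?_
  · exact IF.app (IF.comp IF.fst IF.fst) (E5_div IF.snd)
  · exact IF.app (IF.comp IF.snd IF.fst) (E5_div IF.snd)

/-- the pair of internal functions -/
noncomputable def E5_J (z : IFn N ℕ ℕ × IFn N ℕ ℕ) : IFn N ℕ ℕ :=
  IFn.sec (f := fun (z : IFn N ℕ ℕ × IFn N ℕ ℕ) (n : ℕ) => jn z.1.1 z.2.1 n) E5_jn z

theorem E5_J_val (z : IFn N ℕ ℕ × IFn N ℕ ℕ) : (E5_J z).1 = jn z.1.1 z.2.1 := rfl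

theorem E5_J_in : IF N (E5_J (N := N)) :=
  IF.fsec (f := fun (z : IFn N ℕ ℕ × IFn N ℕ ℕ) (n : ℕ) => jn z.1.1 z.2.1 n) E5_jn

theorem E5_cn : IF N (fun z : (ℕ × IFn N ℕ ℕ) × ℕ => cn z.1.1 z.1.2.1 z.2) := by
  have h := IF.ite (T := (ℕ × IFn N ℕ ℕ) × ℕ) (P := fun z => z.2 = 0)
    (f := fun z => z.1.1) (g := fun z => z.1.2.1 (z.2 - 1)) (In.nat_eq (M := N) IF.snd 0)
    (IF.comp IF.fst IF.fst) (IF.app (IF.comp IF.snd IF.fst) (E5_pred IF.snd))
  refine h.congr fun z => ?_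
  obtain ⟨⟨i, x⟩, n⟩ := z
  cases n with
  | zero => rfl
  | succ n => rfl

/-- putting a number in front -/
noncomputable def E5_C (z : ℕ × IFn N ℕ ℕ) : IFn N ℕ ℕ :=
  IFn.sec (f := fun (z : ℕ × IFn N ℕ ℕ) (n : ℕ) => cn z.1 z.2.1 n) E5_cn z

theorem E5_C_val (z : ℕ × IFn N ℕ ℕ) : (E5_C z).1 = cn z.1 z.2.1 := rfl

theorem E5_C_in : IF N (E5_C (N := N)) :=
  IF.fsec (f := fun (z : ℕ × IFn N ℕ ℕ) (n : ℕ) => cn z.1 z.2.1 n) E5_cn

theorem E5_open {a : ℕ → ℕ} (ha : IF N a) :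
    In N (fun x : IFn N ℕ ℕ => ∃ k, a (cd x.1 k) ≠ 0) := by
  have h : In N (fun x : IFn N ℕ ℕ => ∃ l : List ℕ, (∀ i : ℕ, i < l.length →
      l.getD i 0 = x.1 i) ∧ a (Encodable.encode l) ≠ 0) := by
    refine In.ex (P := fun (x : IFn N ℕ ℕ) (l : List ℕ) => (∀ i : ℕ, i < l.length →
      l.getD i 0 = x.1 i) ∧ a (Encodable.encode l) ≠ 0) (In.and ?_ ?_)
    · refine In.all (P := fun (y : IFn N ℕ ℕ × List ℕ) (i : ℕ) => i < y.2.length →
        y.2.getD i 0 = y.1.1 i) (In.imp ?_ ?_)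
      · exact In.lt IF.snd (E5_length (IF.comp IF.snd IF.fst))
      · exact In.eq (E5_getD (IF.comp IF.snd IF.fst) IF.snd)
          (IF.app (IF.comp IF.fst IF.fst) IF.snd)
    · exact (In.nat_eq (IF.comp ha (IF.comp CdP.enc IF.snd)) 0).not
  refine h.congr fun x => ?_
  constructor
  · rintro ⟨k, hk⟩
    refine ⟨(List.range k).map x.1, fun i hi => ?_, hk⟩
    rw [List.length_map, List.length_range] at hi
    simp [List.getD, hi]
  · rintro ⟨l, h1, h2⟩
    refine ⟨l.length, ?_⟩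
    have e : (List.range l.length).map x.1 = l := by
      refine List.ext_getElem (by simp) fun i hi hi' => ?_
      have := h1 i hi'
      simp only [List.getElem_map, List.getElem_range]
      rw [← this, List.getD_eq_getElem _ _ hi']
    show a (Encodable.encode ((List.range l.length).map x.1)) ≠ 0
    rw [e]
    exact h2

end

theorem E5_Sig {N : Set ZFSet.{0}} (hN : Trans N) [ZFC N] (k : ℕ) : ∀ A : Set (ℕ → ℕ),
    Sig (Reals N) k A → In N (fun x : IFn N ℕ ℕ => x.1 ∈ A) := by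
  induction k with
  | zero =>
    rintro A ⟨a, ha, rfl⟩
    have ha' : IF N a := (mem_Reals_iff hN).1 ha
    refine (E5_open ha').congr fun x => ?_
    exact ⟨fun h => h.2, fun h => ⟨(mem_Reals_iff hN).2 x.2, h⟩⟩
  | succ k ih =>
    rintro A ⟨B, hB, rfl⟩
    have h1 := ih B hB
    have h2 : In N (fun z : IFn N ℕ ℕ × IFn N ℕ ℕ => ¬ (E5_J z).1 ∈ B) :=
      (In.comp (P := fun x : IFn N ℕ ℕ => x.1 ∈ B) h1 E5_J_in).not
    refine (In.ex (P := fun (x y : IFn N ℕ ℕ) => ¬ (E5_J (x, y)).1 ∈ B) h2).congr fun x => ?_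
    constructor
    · rintro ⟨-, y, hy, h⟩
      exact ⟨⟨y, (mem_Reals_iff hN).1 hy⟩, h⟩
    · rintro ⟨y, h⟩
      exact ⟨(mem_Reals_iff hN).2 x.2, y.1, (mem_Reals_iff hN).2 y.2, h⟩

/-- projective predicates are internal -/
theorem SigP.in_model {N : Set ZFSet.{0}} (hN : Trans N) [ZFC N] {k : ℕ} {P : (ℕ → ℕ) → Prop}
    (h : SigP (Reals N) k P) : In N (fun x : IFn N ℕ ℕ => P x.1) :=
  (E5_Sig hN k _ h).congr fun x => ⟨fun h => ⟨(mem_Reals_iff hN).2 x.2, h⟩, fun h => h.2⟩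

theorem RC_Reals {N : Set ZFSet.{0}} (hN : Trans N) [ZFC N] : RC (Reals N) where
  prim f hf := (mem_Reals_iff hN).2 (IF.of_primrec hf)
  comp x hx y hy := by
    have hx' : IF N x := (mem_Reals_iff hN).1 hx
    have hy' : IF N y := (mem_Reals_iff hN).1 hy
    exact (mem_Reals_iff hN).2 (IF.comp hx' hy')
  pair x hx y hy := by
    have hx' : IF N x := (mem_Reals_iff hN).1 hx
    have hy' : IF N y := (mem_Reals_iff hN).1 hy
    exact (mem_Reals_iff hN).2 (IF.npair hx' hy')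
  jump x hx := by
    classical
    have hx' : IF N x := (mem_Reals_iff hN).1 hx
    refine (mem_Reals_iff hN).2 ?_
    have h1 : In N (fun n : ℕ => ∃ m : ℕ, x (Nat.pair n m) = 0) :=
      In.ex (P := fun n m : ℕ => x (Nat.pair n m) = 0)
        (In.nat_eq (IF.comp hx' (IF.npair IF.fst IF.snd)) 0)
    have h2 := IF.ite h1 (IF.const (M := N) (T := ℕ) (1 : ℕ)) (IF.const (M := N) (T := ℕ) (0 : ℕ))
    refine h2.congr fun n => ?_
    congr
  prec x hx a := by
    have hx' : IF N x := (mem_Reals_iff hN).1 hx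
    refine (mem_Reals_iff hN).2 ?_
    exact IF.natRec' (M := N) (T := ℕ) (a := fun _ => a) (IF.const a) (n := fun n => n) IF.id
      (g := fun y => x (Nat.pair y.2.1 y.2.2))
      (IF.comp hx' (IF.npair (IF.comp IF.fst IF.snd) (IF.comp IF.snd IF.snd)))
  mu x hx y h := by
    have hx' : IF N x := (mem_Reals_iff hN).1 hx
    refine (mem_Reals_iff hN).2 (IF.of_in ?_)
    have h1 : In N (fun z : ℕ × ℕ => x (Nat.pair z.1 z.2) = 0 ∧
        ∀ m : ℕ, m < z.2 → x (Nat.pair z.1 m) ≠ 0) := by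
      refine In.and (In.nat_eq (IF.comp hx' (IF.npair IF.fst IF.snd)) 0) ?_
      refine In.all (P := fun (z : ℕ × ℕ) (m : ℕ) => m < z.2 → x (Nat.pair z.1 m) ≠ 0)
        (In.imp ?_ ?_)
      · exact In.lt IF.snd (IF.comp IF.snd IF.fst)
      · exact (In.nat_eq (IF.comp hx' (IF.npair (IF.comp IF.fst IF.fst) IF.snd)) 0).not
    refine h1.congr fun z => ?_
    obtain ⟨n, k⟩ := z
    show y n = k ↔ x (Nat.pair n k) = 0 ∧ ∀ m : ℕ, m < k → x (Nat.pair n m) ≠ 0
    constructor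
    · rintro rfl
      exact h n
    · rintro ⟨h2, h3⟩
      rcases lt_trichotomy (y n) k with h4 | h4 | h4
      · exact absurd (h n).1 (h3 _ h4)
      · exact h4
      · exact absurd h2 ((h n).2 _ h4)

theorem RA_Reals {N : Set ZFSet.{0}} (hN : Trans N) [ZFC N] : RA (Reals N) where
  toRC := RC_Reals hN
  ac k P hP h := by
    have h1 : In N (fun x : IFn N ℕ ℕ => P x.1) :=
      (SigP.in_model hN hP).not.congr fun x => not_not.symm
    have h2 : In N (fun z : ℕ × IFn N ℕ ℕ => P (E5_C z).1) :=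
      In.comp (P := fun x : IFn N ℕ ℕ => P x.1) h1 E5_C_in
    obtain ⟨F, hF, hF'⟩ := In.choice (R := fun (i : ℕ) (y : IFn N ℕ ℕ) => P (E5_C (i, y)).1) h2
      (fun i => by
        obtain ⟨y, hy, hy'⟩ := h i
        exact ⟨⟨y, (mem_Reals_iff hN).1 hy⟩, hy'⟩)
    refine ⟨fun n => (F n.unpair.1).1 n.unpair.2, (mem_Reals_iff hN).2 ?_, fun i => ?_⟩
    · exact IF.app (IF.comp hF (IF.comp IF.fst IF.unpair)) (IF.comp IF.snd IF.unpair)
    · have e : sec (fun n => (F n.unpair.1).1 n.unpair.2) i = (F i).1 := by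
        funext n
        simp [sec, Nat.unpair_pair]
      rw [e]
      exact hF' i

end Pool.Agent.H.MP_a163f2_lc
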