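import Pool.Agent.H.MP_a163f2_lc.P.P3
import Pool.Agent.H.MP_a163f2_lc.P.P6
import Pool.Agent.H.MP_a163f2_lc.R.Defs

/-!
# Block E, part 0: the package of facts about the final model

`R` is the set of the reals of the final model, `K` the set of the coded reals, `Ef` the set of
the indices of the effective items, `key`, `w`, `e` give for each effective item its key, its
permission real, and an enumeration (with possible junk which is harmless) of the reals coded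
at the nodes of the plan of the item.
-/

set_option autoImplicit false
set_option linter.unusedSectionVars false

namespace Pool.Agent.H.MP_a163f2_lc

universe u v

/-- the reals enumerated by `e` -/
def EE (e : ℕ → ℕ) : Set (ℕ → ℕ) := {z | ∃ n, z = sec e n}

/-- The package. -/
structure Pkg (R K : Set (ℕ → ℕ)) {O : Type u} [LinearOrder O] (Ef : Set O)
    (key w e : O → ℕ → ℕ) : Prop where
  ksub : K ⊆ R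
  key_mem : ∀ κ ∈ Ef, key κ ∈ R
  w_mem : ∀ κ ∈ Ef, w κ ∈ R
  e_mem : ∀ κ ∈ Ef, e κ ∈ R
  inj : ∀ κ ∈ Ef, ∀ η ∈ Ef, key κ = key η → κ = η
  side_ex : ∀ a ∈ R, a 0 = 0 → (∃ x ∈ R, U3 R x (zx a) ∧ U3 R x (za a)) ∨ ∃ κ ∈ Ef, key κ = a
  side_some : ∀ κ ∈ Ef, key κ 0 = 0 → ∀ x ∈ R, T3 x (key κ) 0 ∈ K ∨ T3 x (key κ) 1 ∈ K
  side_one : ∀ κ ∈ Ef, key κ 0 = 0 → ∀ x ∈ R, T3 x (key κ) 0 ∈ K → T3 x (key κ) 1 ∈ K →
    T3 x (key κ) 0 ∈ EE (e κ) ∨ T3 x (key κ) 1 ∈ EE (e κ)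
  side_left : ∀ κ ∈ Ef, key κ 0 = 0 → ∀ x ∈ R, U3 R x (zx (key κ)) → T3 x (key κ) 1 ∈ K →
    T3 x (key κ) 1 ∈ EE (e κ)
  side_right : ∀ κ ∈ Ef, key κ 0 = 0 → ∀ x ∈ R, U3 R x (za (key κ)) → T3 x (key κ) 0 ∈ K →
    T3 x (key κ) 0 ∈ EE (e κ)
  w_yes : ∀ κ ∈ Ef, key κ 0 ≠ 0 → ∀ x ∈ R, ∀ i < 2, w κ (2 * x 0 + i) = 1 → T3 x (key κ) i ∈ K
  w_no : ∀ κ ∈ Ef, key κ 0 ≠ 0 → ∀ x ∈ R, ∀ i < 2, T3 x (key κ) i ∈ K →
    T3 x (key κ) i ∈ EE (e κ) ∨ w κ (2 * x 0 + i) = 1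
  ord_ex : ∀ q ∈ R, ∃ κ ∈ Ef, key κ = T3 q 0 1
  ord_za : ∀ κ ∈ Ef, key κ 0 = 1 → za (key κ) = 0
  ord_dig : ∀ κ ∈ Ef, key κ 0 = 1 → ∀ n, (w κ (2 * n) = 1 ∧ w κ (2 * n + 1) = 0) ∨
    (w κ (2 * n) = 0 ∧ w κ (2 * n + 1) = 1)
  ord_lst : ∀ κ ∈ Ef, key κ 0 = 1 → ∀ η ∈ Ef, η < κ → key η 0 = 1 →
    ∃ j, Lst (w κ) j (zx (key η))
  ord_def : ∀ κ ∈ Ef, key κ 0 = 1 → ∀ j, LstDef (w κ) j → ∃ η ∈ Ef, η < κ ∧ key η 0 = 1 ∧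
    ∀ n k, w κ (2 * Encodable.encode [j, n, k] + 1) = 1 ↔ k = zx (key η) n
  diag_ex : ∀ b ∈ R, ∃ κ ∈ Ef, key κ 0 = 2 ∧ zx (key κ) = b
  diag_new : ∀ κ ∈ Ef, key κ 0 = 2 → ∀ x ∈ R, ∀ i < 2, T3 x (key κ) i ∉ EE (e κ)
  diag : ∀ κ ∈ Ef, key κ 0 = 2 →
    (w κ 0 = 1 ∧ w κ 1 = 0 ∧ U3 R (key κ) (za (zx (key κ)))) ∨
    (w κ 0 = 0 ∧ w κ 1 = 1 ∧ U3 R (key κ) (zx (zx (key κ)))) ∨
    (w κ 0 = 0 ∧ w κ 1 = 0 ∧ ¬ U3 R (key κ) (zx (zx (key κ))) ∧ ¬ U3 R (key κ) (za (zx (key κ))))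

theorem zx_T3 (x y : ℕ → ℕ) (i : ℕ) : zx (T3 x y i) = x := by
  funext n
  simp only [zx, T3]
  rw [if_neg (by omega), if_pos (by omega)]
  congr 1
  omega

theorem za_T3 (x y : ℕ → ℕ) (i : ℕ) : za (T3 x y i) = y := by
  funext n
  simp only [za, T3]
  rw [if_neg (by omega), if_neg (by omega)]
  congr 1
  omega

theorem T3_zero (x y : ℕ → ℕ) (i : ℕ) : T3 x y i 0 = i := by
  simp [T3]

theorem T3_eta (z : ℕ → ℕ) : T3 (zx z) (za z) (z 0) = z := by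
  funext n
  simp only [zx, za, T3]
  split_ifs with h1 h2
  · rw [h1]
  · congr 1
    omega
  · congr 1
    omega

end Pool.Agent.H.MP_a163f2_lc
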