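import Pool.Agent.H.MP_a163f2_lc.E.E0

/-!
# Block E, part 2: separation
-/

set_option autoImplicit false
set_option linter.unusedSectionVars false

namespace Pool.Agent.H.MP_a163f2_lc

universe u v

variable {R K : Set (ℕ → ℕ)} {O : Type u} [LinearOrder O] {Ef : Set O} {key w e : O → ℕ → ℕ}

theorem E2_primEq : Primrec (fun p : ℕ × ℕ => if p.1 = p.2 then 0 else 1) :=
  Primrec.ite (Primrec.eq.comp Primrec.fst Primrec.snd) (Primrec.const 0) (Primrec.const 1)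

/-- equality of two numbers is a clopen condition -/
theorem E2_eq (hR : RC R) {φ ψ : (ℕ → ℕ) → Unit → ℕ} (hφ : CF R φ) (hψ : CF R ψ) (k : ℕ) :
    SigP R k (fun x => φ x () = ψ x ()) ∧ PiP R k (fun x => φ x () = ψ x ()) := by
  have h1 : CF R (fun x a => (fun p : ℕ × ℕ => if p.1 = p.2 then 0 else 1) (φ x a, ψ x a)) :=
    CF.comp2 hR (RF.of_primrec hR E2_primEq) hφ hψ
  constructor
  · refine (SigP.clopen hR h1 k).congr fun x _ => ?_
    by_cases h : φ x () = ψ x ()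
    · simp [h]
    · simp [h]
  · refine SigP.congr (SigP.clopen' hR h1 k) fun x _ => ?_
    by_cases h : φ x () = ψ x ()
    · simp [h]
    · simp [h]

/-- a subset of a countable set is in the class with index 3 -/
theorem sig_of_countable (hR : RA R) {e : ℕ → ℕ} (he : e ∈ R) {P : (ℕ → ℕ) → Prop}
    (hP : SigP R 3 P) : SigP R 3 (fun x => (∃ n, x = zx (sec e n)) ∧ P x) ∧
      PiP R 3 (fun x => (∃ n, x = zx (sec e n)) ∧ P x) := by
  classical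
  have hC : RC R := hR.toRC
  have hid : CF R (fun (x : ℕ → ℕ) (n : ℕ) => x n) := CF.id' hC
  have h0 : CF R (fun (x : ℕ → ℕ) (_ : Unit) => x 0) := P6_val hC hid 0
  have hF : CF R (fun (x : ℕ → ℕ) n => zx (sec e (x 0)) n) :=
    CF.rg hC (CF.sec hC h0 (CF.cst hC he))
  -- the choice of the real `y`
  have q1 : SigP R 3 (fun z => P (zx (sec e (z 0)))) := SigP.subst hC hP hF
  have t0 : CF R (fun (x : ℕ → ℕ) (_ : Unit) => tl x 0) := P6_val hC (CF.tl hC hid) 0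
  have q2 : PiP R 4 (fun z => (tl z 0 = 1 ∧ P (zx (sec e (z 0)))) ∨
      (tl z 0 = 0 ∧ ¬ P (zx (sec e (z 0))))) := by
    refine PiP.or hC (PiP.and hC ?_ ?_) (PiP.and hC ?_ ?_)
    · exact P6_ne hC t0 1 4
    · exact PiP.of_sig hC q1
    · exact P6_ne hC t0 0 4
    · exact PiP.succ hC (PiP.of_not q1)
  obtain ⟨y, hy, hQ⟩ := hR.ac 4 _ q2 (by
    intro i
    by_cases h : P (zx (sec e i))
    · refine ⟨fun _ => 1, hC.prim _ (Nat.Primrec.const 1), Or.inl ⟨rfl, h⟩⟩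
    · refine ⟨fun _ => 0, hC.prim _ (Nat.Primrec.const 0), Or.inr ⟨rfl, h⟩⟩)
  have hy1 : ∀ i, P (zx (sec e i)) ↔ sec y i 0 = 1 := by
    intro i
    have h1 : (sec y i 0 = 1 ∧ P (zx (sec e i))) ∨ (sec y i 0 = 0 ∧ ¬ P (zx (sec e i))) := hQ i
    rcases h1 with ⟨h1, h2⟩ | ⟨h1, h2⟩
    · exact ⟨fun _ => h1, fun _ => h2⟩
    · refine ⟨fun h3 => absurd h3 h2, fun h3 => ?_⟩
      rw [h1] at h3
      exact absurd h3 (by decide)
  have key : ∀ x ∈ R, ((∃ n, x = zx (sec e n)) ∧ P x) ↔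
      ∃ n, (∀ k, x k = zx (sec e n) k) ∧ sec y n 0 = 1 := by
    intro x _
    constructor
    · rintro ⟨⟨n, hn⟩, h1⟩
      refine ⟨n, fun k => by rw [hn], (hy1 n).1 ?_⟩
      rw [← hn]
      exact h1
    · rintro ⟨n, h1, h2⟩
      have hn : x = zx (sec e n) := funext h1
      refine ⟨⟨n, hn⟩, ?_⟩
      rw [hn]
      exact (hy1 n).2 h2
  -- the matrix
  have m1 : SigP R 3 (fun z => tl (tl z) (z 0) = zx (sec e (tl z 0)) (z 0)) ∧
      PiP R 3 (fun z => tl (tl z) (z 0) = zx (sec e (tl z 0)) (z 0)) := by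
    have a1 : CF R (fun (x : ℕ → ℕ) (_ : Unit) => tl (tl x) (x 0)) :=
      P6_app hC (CF.tl hC (CF.tl hC hid)) h0
    have a2 : CF R (fun (x : ℕ → ℕ) (_ : Unit) => zx (sec e (tl x 0)) (x 0)) :=
      P6_app hC (CF.rg hC (CF.sec hC t0 (CF.cst hC he))) h0
    exact E2_eq hC a1 a2 3
  have m2 : CF R (fun (x : ℕ → ℕ) (_ : Unit) => sec y (x 0) 0) :=
    P6_val hC (CF.sec hC h0 (CF.cst hC hy)) 0
  constructor
  · refine SigP.congr ?_ key
    refine SigP.exN hC (P := fun n x => (∀ k, x k = zx (sec e n) k) ∧ sec y n 0 = 1) ?_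
    refine SigP.and hC ?_ (P6_eq hC m2 1 3)
    exact SigP.allN hR (P := fun k z => tl z k = zx (sec e (z 0)) k) m1.1
  · refine PiP.congr ?_ key
    refine PiP.exN hR (P := fun n x => (∀ k, x k = zx (sec e n) k) ∧ sec y n 0 = 1) ?_
    refine PiP.and hC ?_ (P6_ne hC m2 1 3)
    exact PiP.allN hC (P := fun k z => tl z k = zx (sec e (z 0)) k) m1.2

theorem E2_T3 (hR : RC R) (i : ℕ) {F : (ℕ → ℕ) → ℕ → ℕ} (hF : CF R F) {a : ℕ → ℕ}
    (ha : a ∈ R) : CF R (fun x n => T3 (F x) a i n) :=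
  CF.T3 hR (CF.num hR (RF.const hR i)) hF (CF.cst hR ha)

/-- Sigma-1-3-separation -/
theorem Pkg.separation (hR : RA R) (h : Pkg R K Ef key w e) (hK : SigP R 3 (fun z => z ∈ K)) :
    Separation R (Sig R 3) := by
  classical
  have hC : RC R := hR.toRC
  have hid : CF R (fun (x : ℕ → ℕ) (n : ℕ) => x n) := CF.id' hC
  intro A B hA hB hd
  obtain ⟨a0, ha0, rfl⟩ := (Sig.three0 hC).1 hA
  obtain ⟨a1, ha1, rfl⟩ := (Sig.three0 hC).1 hB
  obtain ⟨a, ha⟩ : ∃ a, a = T3 a0 a1 0 := ⟨_, rfl⟩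
  have haR : a ∈ R := by
    rw [ha]
    exact CF.mem hC (E2_T3 hC 0 hid ha1) ha0
  have az : a 0 = 0 := by rw [ha, T3_zero]
  have ax : zx a = a0 := by rw [ha, zx_T3]
  have aa : za a = a1 := by rw [ha, za_T3]
  rcases h.side_ex a haR az with ⟨x, hx, h1, h2⟩ | ⟨κ, hκ, hkey⟩
  · rw [ax] at h1
    rw [aa] at h2
    exact absurd ⟨hx, h2⟩ (Set.disjoint_left.1 hd ⟨hx, h1⟩)
  have k0 : key κ 0 = 0 := by rw [hkey, az]
  have s1 := h.side_some κ hκ k0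
  have s2 := h.side_one κ hκ k0
  have s3 := h.side_left κ hκ k0
  have s4 := h.side_right κ hκ k0
  rw [hkey] at s1 s2 s3 s4
  rw [ax] at s3
  rw [aa] at s4
  have heR : e κ ∈ R := h.e_mem κ hκ
  have hE : ∀ x i, T3 x a i ∈ EE (e κ) → ∃ n, x = zx (sec (e κ) n) := by
    rintro x i ⟨n, hn⟩
    exact ⟨n, by rw [← hn, zx_T3]⟩
  have hU : SigP R 3 (fun x => U3 R x a0) := hA
  have c1 := sig_of_countable hR heR hU
  have cE : SigP R 3 (fun x => ∃ n, x = zx (sec (e κ) n)) ∧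
      PiP R 3 (fun x => ∃ n, x = zx (sec (e κ) n)) := by
    have hT : SigP R 3 (fun _ => True) :=
      (P6_eq hC (CF.num hC (RF.const hC 0)) 0 3).congr fun x _ => by simp
    have c2 := sig_of_countable hR heR hT
    exact ⟨c2.1.congr fun x _ => by simp, c2.2.congr fun x _ => by simp⟩
  have cK : ∀ i, SigP R 3 (fun x => T3 x a i ∈ K) := fun i =>
    SigP.subst hC hK (E2_T3 hC i hid haR)
  have g1 : SigP R 3 (fun x => (¬ (∃ n, x = zx (sec (e κ) n)) ∧ T3 x a 0 ∈ K) ∨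
      ((∃ n, x = zx (sec (e κ) n)) ∧ U3 R x a0)) :=
    SigP.or hC (SigP.and hC cE.2 (cK 0)) c1.1
  have g2 : SigP R 3 (fun x => (¬ (∃ n, x = zx (sec (e κ) n)) ∧ T3 x a 1 ∈ K) ∨
      ((∃ n, x = zx (sec (e κ) n)) ∧ ¬ ((∃ n, x = zx (sec (e κ) n)) ∧ U3 R x a0))) :=
    SigP.or hC (SigP.and hC cE.2 (cK 1)) (SigP.and hC cE.1 c1.2)
  refine ⟨{x | x ∈ R ∧ ((¬ (∃ n, x = zx (sec (e κ) n)) ∧ T3 x a 0 ∈ K) ∨
      ((∃ n, x = zx (sec (e κ) n)) ∧ U3 R x a0))}, g1, ?_, ?_, ?_⟩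
  · have e1 : R \ {x | x ∈ R ∧ ((¬ (∃ n, x = zx (sec (e κ) n)) ∧ T3 x a 0 ∈ K) ∨
        ((∃ n, x = zx (sec (e κ) n)) ∧ U3 R x a0))} =
        {x | x ∈ R ∧ ((¬ (∃ n, x = zx (sec (e κ) n)) ∧ T3 x a 1 ∈ K) ∨
          ((∃ n, x = zx (sec (e κ) n)) ∧ ¬ ((∃ n, x = zx (sec (e κ) n)) ∧ U3 R x a0)))} := by
      ext x
      constructor
      · rintro ⟨hx, h1⟩
        refine ⟨hx, ?_⟩
        by_cases h2 : ∃ n, x = zx (sec (e κ) n)
        · exact Or.inr ⟨h2, fun h3 => h1 ⟨hx, Or.inr h3⟩⟩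
        · rcases s1 x hx with h3 | h3
          · exact absurd ⟨hx, Or.inl ⟨h2, h3⟩⟩ h1
          · exact Or.inl ⟨h2, h3⟩
      · rintro ⟨hx, h1⟩
        refine ⟨hx, ?_⟩
        rintro ⟨-, h2⟩
        rcases h1 with ⟨h3, h4⟩ | ⟨h3, h4⟩
        · rcases h2 with ⟨-, h5⟩ | ⟨h5, -⟩
          · rcases s2 x hx h5 h4 with h6 | h6
            · exact h3 (hE x 0 h6)
            · exact h3 (hE x 1 h6)
          · exact h3 h5
        · rcases h2 with ⟨h5, -⟩ | h5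
          · exact h5 h3
          · exact h4 h5
    rw [e1]
    exact g2
  · rintro x ⟨hx, h1⟩
    refine ⟨hx, ?_⟩
    by_cases h2 : ∃ n, x = zx (sec (e κ) n)
    · exact Or.inr ⟨h2, h1⟩
    · refine Or.inl ⟨h2, ?_⟩
      rcases s1 x hx with h3 | h3
      · exact h3
      · exact absurd (hE x 1 (s3 x hx h1 h3)) h2
  · rw [Set.disjoint_left]
    rintro x ⟨hx, h1⟩ ⟨-, h2⟩
    rcases h1 with ⟨h3, h4⟩ | ⟨-, h4⟩
    · exact h3 (hE x 0 (s4 x hx h2 h4))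
    · exact Set.disjoint_left.1 hd ⟨hx, h4⟩ ⟨hx, h2⟩

end Pool.Agent.H.MP_a163f2_lc
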