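import Pool.Agent.H.MP_a163f2_lc.E.E0

/-!
# Block E, part 3: reduction fails for Pi-1-3
-/

set_option autoImplicit false
set_option linter.unusedSectionVars false

namespace Pool.Agent.H.MP_a163f2_lc

universe u v

variable {R K : Set (ℕ → ℕ)} {O : Type u} [LinearOrder O] {Ef : Set O} {key w e : O → ℕ → ℕ}

theorem E3_T3 (hR : RC R) {x : ℕ → ℕ} (hx : x ∈ R) (i : ℕ) :
    CF R (fun b n => T3 x b i n) :=
  CF.T3 hR (φ := fun _ _ => i) (F := fun _ n => x n) (G := fun b n => b n)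
    (CF.num hR (RF.const hR i)) (CF.cst hR hx) (CF.id' hR)

theorem E3_T3_mem (hR : RC R) {x y : ℕ → ℕ} (hx : x ∈ R) (hy : y ∈ R) (i : ℕ) : T3 x y i ∈ R :=
  CF.mem hR (F := fun b n => T3 x b i n) (E3_T3 hR hx i) hy

/-- the set of the `b` such that `T3 x b i` is not coded -/
theorem E3_pi (hR : RC R) (hK : SigP R 3 (fun z => z ∈ K)) {x : ℕ → ℕ} (hx : x ∈ R) (i : ℕ) :
    PiR R 3 {b | b ∈ R ∧ T3 x b i ∉ K} := by
  rw [PiP.iff_PiR (fun b hb => hb.1)]
  have h1 : SigP R 3 (fun b => T3 x b i ∈ K) :=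
    SigP.subst hR (F := fun b n => T3 x b i n) hK (E3_T3 hR hx i)
  exact PiP.congr (PiP.of_not h1) fun b hb => ⟨fun h2 => h2.2, fun h2 => ⟨hb, h2⟩⟩

/-- Pi-1-3-reduction fails -/
theorem Pkg.not_reduction_three (hR : RA R) (h : Pkg R K Ef key w e)
    (hK : SigP R 3 (fun z => z ∈ K)) : ¬ Reduction (PiR R 3) := by
  intro hred
  have hC : RC R := hR.toRC
  have hz : (fun _ => 0 : ℕ → ℕ) ∈ R := hC.prim _ (Nat.Primrec.const 0)
  obtain ⟨A', B', hA', hB', hAA, hBB, hd, hu⟩ := hred _ _ (E3_pi hC hK hz 0) (E3_pi hC hK hz 1)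
  obtain ⟨a0, ha0, e0⟩ := (Sig.three0 hC).1 hA'.2
  obtain ⟨a1, ha1, e1⟩ := (Sig.three0 hC).1 hB'.2
  obtain ⟨κ, hκ, hk0, hkx⟩ := h.diag_ex _ (E3_T3_mem hC ha0 ha1 0)
  have haR := h.key_mem κ hκ
  have hA0 : U3 R (key κ) a0 ↔ key κ ∉ A' := by
    constructor
    · intro h1
      have h2 : key κ ∈ R \ A' := by
        rw [e0]
        exact ⟨haR, h1⟩
      exact h2.2
    · intro h1
      have h2 : key κ ∈ R \ A' := ⟨haR, h1⟩
      rw [e0] at h2
      exact h2.2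
  have hB0 : U3 R (key κ) a1 ↔ key κ ∉ B' := by
    constructor
    · intro h1
      have h2 : key κ ∈ R \ B' := by
        rw [e1]
        exact ⟨haR, h1⟩
      exact h2.2
    · intro h1
      have h2 : key κ ∈ R \ B' := ⟨haR, h1⟩
      rw [e1] at h2
      exact h2.2
  have hne : key κ 0 ≠ 0 := by
    rw [hk0]
    norm_num
  have hin : ∀ i < 2, (T3 (fun _ => 0) (key κ) i ∈ K ↔ w κ i = 1) := by
    intro i hi
    have e2 : 2 * (fun _ => 0 : ℕ → ℕ) 0 + i = i := by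
      show 2 * 0 + i = i
      omega
    constructor
    · intro h1
      rcases h.w_no κ hκ hne _ hz i hi h1 with h2 | h2
      · exact absurd h2 (h.diag_new κ hκ hk0 _ hz i hi)
      · rw [e2] at h2
        exact h2
    · intro h1
      refine h.w_yes κ hκ hne _ hz i hi ?_
      rw [e2]
      exact h1
  have hmem : key κ ∈ {b | b ∈ R ∧ T3 (fun _ => 0) b 0 ∉ K} ∪
      {b | b ∈ R ∧ T3 (fun _ => 0) b 1 ∉ K} → key κ ∈ A' ∪ B' := fun h1 => by
    rw [hu]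
    exact h1
  rcases h.diag κ hκ hk0 with ⟨h1, h2, h3⟩ | ⟨h1, h2, h3⟩ | ⟨-, -, h3, h4⟩
  · rw [hkx, za_T3, hB0] at h3
    have h5 : T3 (fun _ => 0) (key κ) 1 ∉ K := by
      rw [hin 1 (by norm_num), h2]
      norm_num
    rcases hmem (Or.inr ⟨haR, h5⟩) with h6 | h6
    · exact (hAA h6).2 ((hin 0 (by norm_num)).2 h1)
    · exact h3 h6
  · rw [hkx, zx_T3, hA0] at h3
    have h5 : T3 (fun _ => 0) (key κ) 0 ∉ K := by
      rw [hin 0 (by norm_num), h1]
      norm_num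
    rcases hmem (Or.inl ⟨haR, h5⟩) with h6 | h6
    · exact h3 h6
    · exact (hBB h6).2 ((hin 1 (by norm_num)).2 h2)
  · rw [hkx, zx_T3, hA0, not_not] at h3
    rw [hkx, za_T3, hB0, not_not] at h4
    exact Set.disjoint_left.1 hd h3 h4

end Pool.Agent.H.MP_a163f2_lc
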