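import Pool.Agent.H.MP_a163f2_lc.E.E0

/-!
# Block E, part 4: the good wellorder, reduction fails for Pi-1-n, n at least 4
-/

set_option autoImplicit false
set_option linter.unusedSectionVars false

namespace Pool.Agent.H.MP_a163f2_lc

universe u v

variable {R K : Set (ℕ → ℕ)} {O : Type u} [LinearOrder O] {Ef : Set O} {key w e : O → ℕ → ℕ}

theorem E4_const_mem (hR : RC R) (m : ℕ) : (fun _ => m) ∈ R := hR.prim _ (Nat.Primrec.const m)

theorem E4_zx_mem (hR : RC R) {x : ℕ → ℕ} (hx : x ∈ R) : zx x ∈ R := by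
  have h1 : RF R (fun n : ℕ => 2 * n + 1) :=
    RF.of_primrec hR (Primrec.succ.comp (Primrec.nat_mul.comp (Primrec.const 2) Primrec.id))
  exact CF.mem hR (F := fun x n => zx x n) (CF.par hR (CF.id' hR) h1) hx

/-- `R` has no enumeration in `R` of all reals with a given first value -/
theorem exists_not_enum (hR : RA R) {r : ℕ → ℕ} (hr : r ∈ R) (n : ℕ) :
    ∃ x ∈ R, x 0 = n ∧ ∀ m, x ≠ sec r m := by
  have hC := hR.toRC
  have ha : (fun k => r (Nat.pair k (k + 1)) + 1) ∈ R := by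
    refine (RF.mem hC).1 ?_
    have h1 : RF R (fun k : ℕ => Nat.pair k (k + 1)) :=
      RF.of_primrec hC (Primrec₂.natPair.comp Primrec.id Primrec.succ)
    have h2 : RF R (fun k : ℕ => r (Nat.pair k (k + 1))) := RF.comp hC ((RF.mem hC).2 hr) h1
    exact RF.comp hC (RF.of_primrec hC Primrec.succ) h2
  refine ⟨cn n (fun k => r (Nat.pair k (k + 1)) + 1), ?_, rfl, fun m hm => ?_⟩
  · exact CF.mem hC (F := fun _ k => cn n (fun k => r (Nat.pair k (k + 1)) + 1) k)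
      (CF.cn hC (CF.num hC (RF.const hC n)) (CF.cst hC ha)) ha
  · have h1 := congrFun hm (m + 1)
    have h2 : cn n (fun k => r (Nat.pair k (k + 1)) + 1) (m + 1) =
      r (Nat.pair m (m + 1)) + 1 := rfl
    have h3 : sec r m (m + 1) = r (Nat.pair m (m + 1)) := rfl
    rw [h2, h3] at h1
    omega

/-- the permission real `v` of the order item with the key `T3 q 0 1` -/
def Gr0 (R K : Set (ℕ → ℕ)) (q v : ℕ → ℕ) : Prop :=
  ∀ n, ∀ i < 2, (v (2 * n + i) = 1 ∧ v (2 * n + (1 - i)) = 0 ∧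
    ∃ r ∈ R, ∀ x ∈ R, x 0 = n → (∀ m, x ≠ sec r m) → T3 x (T3 q 0 1) (1 - i) ∉ K) ∨
    (v (2 * n + i) = 0 ∧ v (2 * n + (1 - i)) = 1 ∧
    ∃ r ∈ R, ∀ x ∈ R, x 0 = n → (∀ m, x ≠ sec r m) → T3 x (T3 q 0 1) i ∉ K)

/-- one alternative -/
def E4_Q (R K : Set (ℕ → ℕ)) (i j n : ℕ) (q v : ℕ → ℕ) : Prop :=
  v (2 * n + i) = 1 ∧ v (2 * n + j) = 0 ∧
    ∃ r ∈ R, ∀ x ∈ R, x 0 = n → (∀ m, x ≠ sec r m) → T3 x (T3 q 0 1) j ∉ K

theorem E4_Gr0_iff {q v : ℕ → ℕ} : Gr0 R K q v ↔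
    ∀ n, E4_Q R K 0 1 n q v ∨ E4_Q R K 1 0 n q v := by
  constructor
  · intro h n
    rcases h n 0 (by norm_num) with ⟨h1, h2, h3⟩ | ⟨h1, h2, h3⟩
    · exact Or.inl ⟨h1, h2, h3⟩
    · exact Or.inr ⟨h2, h1, h3⟩
  · intro h n i hi
    have hi' : i = 0 ∨ i = 1 := by omega
    rcases hi' with rfl | rfl
    · rcases h n with ⟨h1, h2, h3⟩ | ⟨h1, h2, h3⟩
      · exact Or.inl ⟨h1, h2, h3⟩
      · exact Or.inr ⟨h2, h1, h3⟩
    · rcases h n with ⟨h1, h2, h3⟩ | ⟨h1, h2, h3⟩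
      · exact Or.inr ⟨h2, h1, h3⟩
      · exact Or.inl ⟨h1, h2, h3⟩

theorem E4_prim_eq : Primrec (fun p : ℕ × ℕ => if p.1 = p.2 then 0 else 1) :=
  Primrec.ite (Primrec.eq.comp Primrec.fst Primrec.snd) (Primrec.const 0) (Primrec.const 1)

theorem E4_eq (hR : RC R) {φ ψ : (ℕ → ℕ) → Unit → ℕ} (hφ : CF R φ) (hψ : CF R ψ) (k : ℕ) :
    SigP R k (fun x => φ x () = ψ x ()) ∧ PiP R k (fun x => φ x () = ψ x ()) := by
  have h1 : CF R (fun x a => (fun p : ℕ × ℕ => if p.1 = p.2 then 0 else 1) (φ x a, ψ x a)) :=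
    CF.comp2 hR (RF.of_primrec hR E4_prim_eq) hφ hψ
  constructor
  · refine (SigP.clopen hR h1 k).congr fun x _ => ?_
    by_cases h : φ x () = ψ x ()
    · simp [h]
    · simp [h]
  · refine (SigP.clopen' hR h1 k).congr fun x _ => ?_
    by_cases h : φ x () = ψ x ()
    · simp [h]
    · simp [h]

theorem E4_Q_sig (hR : RA R) (hK : SigP R 3 (fun z => z ∈ K)) (i j : ℕ) :
    SigP R 4 (fun y => E4_Q R K i j (y 0) (lf (tl y)) (rg (tl y))) := by
  have hC := hR.toRC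
  have hid : CF R (fun (x : ℕ → ℕ) (n : ℕ) => x n) := CF.id' hC
  -- the digits
  have hdig : ∀ l c : ℕ, SigP R 4 (fun y => rg (tl y) (2 * y 0 + l) = c) := by
    intro l c
    have h1 : CF R (fun y (_ : Unit) => 2 * y 0 + l) := by
      have h2 : RF R (fun n : ℕ => 2 * n + l) :=
        RF.of_primrec hC (Primrec.nat_add.comp
          (Primrec.nat_mul.comp (Primrec.const 2) Primrec.id) (Primrec.const l))
      exact CF.comp1 hC h2 (P6_val hC hid 0)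
    exact P6_eq hC (P6_app hC (CF.rg hC (CF.tl hC hid)) h1) c 4
  -- the matrix
  have c1 : PiP R 3 (fun u => ¬ (rg u 0 = lf (lf u) 0)) := by
    have h1 := (E4_eq hC (P6_val (α := Unit) hC (CF.rg hC hid) 0)
      (P6_val (α := Unit) hC (CF.lf hC (CF.lf hC hid)) 0) 3).1
    exact PiP.of_not h1
  have c2 : PiP R 3 (fun u => ∃ m, rg u = sec (rg (lf u)) m) := by
    refine PiP.exN hR (P := fun m u => rg u = sec (rg (lf u)) m) ?_
    have h1 : PiP R 3 (fun y => ∀ k, rg (tl y) k = sec (rg (lf (tl y))) (y 0) k) := by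
      refine PiP.allN hC (P := fun k y => rg (tl y) k = sec (rg (lf (tl y))) (y 0) k) ?_
      have a1 : CF R (fun w (_ : Unit) => rg (tl (tl w)) (w 0)) :=
        P6_app hC (CF.rg hC (CF.tl hC (CF.tl hC hid))) (P6_val hC hid 0)
      have a2 : CF R (fun w n => sec (rg (lf (tl (tl w)))) (tl w 0) n) :=
        CF.sec hC (φ := fun w _ => tl w 0) (P6_val hC (CF.tl hC hid) 0)
          (CF.rg hC (CF.lf hC (CF.tl hC (CF.tl hC hid))))
      have a3 : CF R (fun w (_ : Unit) => sec (rg (lf (tl (tl w)))) (tl w 0) (w 0)) :=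
        P6_app hC a2 (P6_val hC hid 0)
      exact (E4_eq hC a1 a3 3).2
    refine h1.congr fun y _ => ?_
    exact ⟨fun h k => by rw [h], fun h => funext h⟩
  have c3 : PiP R 3 (fun u => T3 (rg u) (T3 (lf (tl (lf (lf u)))) 0 1) j ∉ K) := by
    refine PiP.of_not ?_
    have a1 : CF R (fun u n => T3 (lf (tl (lf (lf u)))) 0 1 n) :=
      CF.T3 hC (φ := fun _ _ => 1) (G := fun _ _ => 0) (CF.num hC (RF.const hC 1))
        (CF.lf hC (CF.tl hC (CF.lf hC (CF.lf hC hid)))) (CF.cst hC (E4_const_mem hC 0))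
    have a2 : CF R (fun u n => T3 (rg u) (T3 (lf (tl (lf (lf u)))) 0 1) j n) :=
      CF.T3 hC (φ := fun _ _ => j) (CF.num hC (RF.const hC j)) (CF.rg hC hid) a1
    exact SigP.subst hC hK a2
  have c4 : PiP R 3 (fun u => rg u 0 = lf (lf u) 0 → (∀ m, rg u ≠ sec (rg (lf u)) m) →
      T3 (rg u) (T3 (lf (tl (lf (lf u)))) 0 1) j ∉ K) := by
    refine (PiP.or hC c1 (PiP.or hC c2 c3)).congr fun u _ => ?_
    constructor
    · intro h
      by_cases h1 : rg u 0 = lf (lf u) 0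
      · right
        by_cases h2 : ∃ m, rg u = sec (rg (lf u)) m
        · exact Or.inl h2
        · push Not at h2
          exact Or.inr (h h1 h2)
      · exact Or.inl h1
    · rintro (h | ⟨m, h⟩ | h) h1 h2
      · exact absurd h1 h
      · exact absurd h (h2 m)
      · exact h
  have c5 : PiP R 3 (fun z => ∀ x ∈ R, x 0 = lf z 0 → (∀ m, x ≠ sec (rg z) m) →
      T3 x (T3 (lf (tl (lf z))) 0 1) j ∉ K) :=
    PiP.allR hC (P := fun z x => x 0 = lf z 0 → (∀ m, x ≠ sec (rg z) m) →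
      T3 x (T3 (lf (tl (lf z))) 0 1) j ∉ K) c4
  have c6 : SigP R 4 (fun y => ∃ r ∈ R, ∀ x ∈ R, x 0 = y 0 → (∀ m, x ≠ sec r m) →
      T3 x (T3 (lf (tl y)) 0 1) j ∉ K) :=
    SigP.exR_pi hC (P := fun y r => ∀ x ∈ R, x 0 = y 0 → (∀ m, x ≠ sec r m) →
      T3 x (T3 (lf (tl y)) 0 1) j ∉ K) c5
  exact SigP.and hC (hdig i 1) (SigP.and hC (hdig j 0) c6)

theorem Gr0.sig (hR : RA R) (hK : SigP R 3 (fun z => z ∈ K)) :
    SigP R 4 (fun z => Gr0 R K (lf z) (rg z)) := by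
  have h1 : SigP R 4 (fun z => ∀ n, E4_Q R K 0 1 n (lf z) (rg z) ∨
      E4_Q R K 1 0 n (lf z) (rg z)) :=
    SigP.allN hR (P := fun n z => E4_Q R K 0 1 n (lf z) (rg z) ∨ E4_Q R K 1 0 n (lf z) (rg z))
      (SigP.or hR.toRC (E4_Q_sig hR hK 0 1) (E4_Q_sig hR hK 1 0))
  exact h1.congr fun z _ => E4_Gr0_iff

/-- the enumeration of the first components -/
theorem E4_enum (hR : RC R) {e : ℕ → ℕ} (he : e ∈ R) :
    ∃ r ∈ R, ∀ m, sec r m = zx (sec e m) := by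
  refine ⟨fun p => e (Nat.pair p.unpair.1 (2 * p.unpair.2 + 1)), ?_, ?_⟩
  · refine (RF.mem hR).1 ?_
    have h1 : Primrec (fun p : ℕ => Nat.pair p.unpair.1 (2 * p.unpair.2 + 1)) :=
      Primrec₂.natPair.comp (Primrec.fst.comp Primrec.unpair)
        (Primrec.succ.comp (Primrec.nat_mul.comp (Primrec.const 2)
          (Primrec.snd.comp Primrec.unpair)))
    exact RF.comp hR ((RF.mem hR).2 he) (RF.of_primrec hR h1)
  · intro m
    funext k
    simp only [sec, zx, Nat.unpair_pair]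

theorem E4_no (hR : RA R) {r : ℕ → ℕ} (hr : r ∈ R) (n : ℕ) {C : (ℕ → ℕ) → Prop}
    (h1 : ∀ x ∈ R, x 0 = n → (∀ m, x ≠ sec r m) → ¬ C x) (h2 : ∀ x ∈ R, x 0 = n → C x) :
    False := by
  obtain ⟨x, hx, hx0, hxr⟩ := exists_not_enum hR hr n
  exact h1 x hx hx0 hxr (h2 x hx hx0)

theorem Gr0.iff (hR : RA R) (h : Pkg R K Ef key w e) {κ : O} (hκ : κ ∈ Ef) {q : ℕ → ℕ}
    (hq : q ∈ R) (hk : key κ = T3 q 0 1) {v : ℕ → ℕ} (hv : v ∈ R) : Gr0 R K q v ↔ v = w κ := by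
  have hC := hR.toRC
  have hk0 : key κ 0 = 1 := by rw [hk, T3_zero]
  have hk1 : key κ 0 ≠ 0 := by rw [hk0]; norm_num
  have hdig := h.ord_dig κ hκ hk0
  rw [E4_Gr0_iff]
  constructor
  · intro hG
    have key : ∀ n, v (2 * n) = w κ (2 * n) ∧ v (2 * n + 1) = w κ (2 * n + 1) := by
      intro n
      rcases hG n with ⟨h1, h2, r, hr, h3⟩ | ⟨h1, h2, r, hr, h3⟩
      · have h4 : w κ (2 * n + 1) ≠ 1 := by
          intro h4
          refine E4_no hR hr n (C := fun x => T3 x (T3 q 0 1) 1 ∈ K) h3 fun x hx hx0 => ?_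
          have h5 := h.w_yes κ hκ hk1 x hx 1 (by norm_num) (by rw [hx0]; exact h4)
          rwa [hk] at h5
        rcases hdig n with ⟨d1, d2⟩ | ⟨d1, d2⟩
        · exact ⟨h1.trans d1.symm, h2.trans d2.symm⟩
        · exact absurd d2 h4
      · have h4 : w κ (2 * n + 0) ≠ 1 := by
          intro h4
          refine E4_no hR hr n (C := fun x => T3 x (T3 q 0 1) 0 ∈ K) h3 fun x hx hx0 => ?_
          have h5 := h.w_yes κ hκ hk1 x hx 0 (by norm_num) (by rw [hx0]; exact h4)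
          rwa [hk] at h5
        rcases hdig n with ⟨d1, d2⟩ | ⟨d1, d2⟩
        · exact absurd d1 h4
        · exact ⟨h2.trans d1.symm, h1.trans d2.symm⟩
    funext m
    rcases Nat.even_or_odd' m with ⟨n, rfl | rfl⟩
    · exact (key n).1
    · exact (key n).2
  · rintro rfl n
    obtain ⟨r, hr, hrm⟩ := E4_enum hC (h.e_mem κ hκ)
    have hno : ∀ i < 2, w κ (2 * n + i) = 0 → ∀ x ∈ R, x 0 = n → (∀ m, x ≠ sec r m) →
        T3 x (T3 q 0 1) i ∉ K := by
      intro i hi h0 x hx hx0 hxr hxK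
      rw [← hk] at hxK
      rcases h.w_no κ hκ hk1 x hx i hi hxK with ⟨m, hm⟩ | h1
      · have h2 := congrArg zx hm
        rw [zx_T3, ← hrm] at h2
        exact hxr m h2
      · rw [hx0, h0] at h1
        exact absurd h1 (by norm_num)
    rcases hdig n with ⟨d1, d2⟩ | ⟨d1, d2⟩
    · exact Or.inl ⟨d1, d2, r, hr, hno 1 (by norm_num) d2⟩
    · exact Or.inr ⟨d2, d1, r, hr, hno 0 (by norm_num) d1⟩

/-- Reduction fails for all Pi-1-n with `n ≥ 4`. -/
theorem Pkg.not_reduction (hR : RA R) (h : Pkg R K Ef key w e)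
    (hw : WellFounded ((· < ·) : O → O → Prop))
    (hK : SigP R 3 (fun z => z ∈ K)) {n : ℕ} (hn : 4 ≤ n) : ¬ Reduction (PiR R n) := by
  have hC := hR.toRC
  obtain ⟨k, rfl⟩ : ∃ k, n = k + 1 := ⟨n - 1, by omega⟩
  intro hred
  haveI : Nonempty O := by
    obtain ⟨κ, -, -⟩ := h.ord_ex _ (E4_const_mem hC 0)
    exact ⟨κ⟩
  choose! rk hrk1 hrk2 using h.ord_ex
  have hk0 : ∀ q ∈ R, key (rk q) 0 = 1 := fun q hq => by rw [hrk2 q hq, T3_zero]
  have hG : ∀ q ∈ R, ∀ v ∈ R, Gr0 R K q v ↔ v = w (rk q) := fun q hq v hv =>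
    Gr0.iff hR h (hrk1 q hq) hq (hrk2 q hq) hv
  refine novikov hC (reduction_of_wo hR hn hw rk ?_ (Gr0 R K) (Gr0.sig hR hK) ?_ ?_ ?_) hred
  · intro q hq q' hq' he
    have h1 := hrk2 q hq
    rw [he, hrk2 q' hq'] at h1
    have h2 := congrArg zx h1
    rw [zx_T3, zx_T3] at h2
    exact h2.symm
  · intro q hq
    exact ⟨w (rk q), h.w_mem _ (hrk1 q hq), (hG q hq _ (h.w_mem _ (hrk1 q hq))).2 rfl⟩
  · intro q hq v hv hGv q' hq'
    rw [hG q hq v hv] at hGv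
    subst hGv
    constructor
    · intro hlt
      obtain ⟨j, hj⟩ := h.ord_lst _ (hrk1 q hq) (hk0 q hq) _ (hrk1 q' hq') hlt (hk0 q' hq')
      rw [hrk2 q' hq', zx_T3] at hj
      exact ⟨j, hj⟩
    · rintro ⟨j, hj⟩
      obtain ⟨η, hη, hlt, hη0, hη2⟩ := h.ord_def _ (hrk1 q hq) (hk0 q hq) j ⟨q' 0, hj 0⟩
      have h1 : q' = zx (key η) := by
        funext n
        exact (hη2 n (q' n)).1 (hj n)
      have h2 : key η = T3 q' 0 1 := by
        rw [← T3_eta (key η), h.ord_za η hη hη0, hη0, ← h1]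
      have h3 : η = rk q' := h.inj η hη _ (hrk1 q' hq') (h2.trans (hrk2 q' hq').symm)
      rw [← h3]
      exact hlt
  · intro q hq v hv hGv j hj
    rw [hG q hq v hv] at hGv
    subst hGv
    obtain ⟨η, hη, hlt, hη0, hη2⟩ := h.ord_def _ (hrk1 q hq) (hk0 q hq) j hj
    refine ⟨zx (key η), E4_zx_mem hC (h.key_mem η hη), fun n => (hη2 n _).2 rfl, ?_⟩
    intro q'' _ hq''
    funext n
    exact (hη2 n (q'' n)).1 (hq'' n)

end Pool.Agent.H.MP_a163f2_lc
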