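import Pool.Agent.H.MP_a163f2_lc.E.E1
import Pool.Agent.H.MP_a163f2_lc.E.E2
import Pool.Agent.H.MP_a163f2_lc.E.E3
import Pool.Agent.H.MP_a163f2_lc.E.E4
import Pool.Agent.H.MP_a163f2_lc.E.E5
import Pool.Agent.H.MP_a163f2_lc.R.DEnd
import Pool.Agent.H.MP_a163f2_lc.Z.Exists

/-!
# Block E, part 6: from the ground model to the final model
-/

set_option autoImplicit false
set_option linter.unusedSectionVars false

namespace Pool.Agent.H.MP_a163f2_lc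

open Pool.Agent.H.MP_07d118_lc

universe u v

section

variable {S : Set ZFSet.{0}} [ZFC S] {W : Type 1} [LinearOrder W] [Cd S W]
variable {hw : WellFounded ((· < ·) : W → W → Prop)} {c : W × Hc → ℕ → ℕ}

/-- the code of a pair of a history and a condition, as a set -/
noncomputable def zc (x : HC S W) : ZFSet.{0} := (Cd.code x : S).1

theorem zc_inj : Function.Injective (zc : HC S W → ZFSet.{0}) := fun _ _ h =>
  Cd.inj (M := S) (Subtype.ext h)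

theorem zc_mem (x : HC S W) : zc x ∈ S := (Cd.code x : S).2

/-- From a generic filter of the coded forcing to a typed generic filter. -/
theorem QGen.of_generic (hT : Trans S) {P L : ZFSet.{0}}
    (hP : ∀ y, y ∈ P ↔ ∃ x ∈ QV (M := S) hw c, zc x = y)
    (hL : ∀ x y : HC S W, ZFSet.pair (zc x) (zc y) ∈ L ↔ QL c x y)
    {G : Set ZFSet.{0}} (hG : Generic S P L G) : QGen hw c {x : HC S W | zc x ∈ G} where
  sub x hx := by
    obtain ⟨y, hy, h⟩ := (hP _).1 (hG.sub _ hx)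
    rw [← zc_inj h]
    exact hy
  ne := by
    obtain ⟨p, hp⟩ := hG.ne
    obtain ⟨x, _, rfl⟩ := (hP _).1 (hG.sub p hp)
    exact ⟨x, hp⟩
  up x hx y hy h := hG.up _ hx _ ((hP _).2 ⟨y, hy, rfl⟩) ((hL x y).2 h)
  dir x hx y hy := by
    obtain ⟨r, hr, h1, h2⟩ := hG.dir _ hx _ hy
    obtain ⟨z, _, rfl⟩ := (hP _).1 (hG.sub r hr)
    exact ⟨z, hr, (hL z x).1 h1, (hL z y).1 h2⟩
  meets D hD := by
    obtain ⟨p, hp, hpD⟩ := hG.meets D.cod.1 D.cod.2 (by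
      intro p hp
      obtain ⟨x, hx, rfl⟩ := (hP _).1 hp
      obtain ⟨y, hy, h1, h2⟩ := hD x hx
      exact ⟨zc y, (hP _).2 ⟨y, hy, rfl⟩, (hL y x).2 h1, ISet.mem_cod.2 h2⟩)
    obtain ⟨x, _, rfl⟩ := (hP _).1 (hG.sub p hp)
    exact ⟨x, hp, ISet.mem_cod.1 (show (Cd.code x : S) ∈ D.cod from hpD)⟩

/-- The reals of the extension. -/
theorem Reals_eq_RN (hT : Trans S) {P L : ZFSet.{0}}
    (hP : ∀ y, y ∈ P ↔ ∃ x ∈ QV (M := S) hw c, zc x = y) {G : Set ZFSet.{0}} (hG : Generic S P L G)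
    {N : Set ZFSet.{0}} (hN : ∀ x : ℕ → ℕ, x ∈ Reals N ↔
      ∃ R ∈ S, ∀ n k, (x n = k ↔ ∃ p ∈ G, ZFSet.pair (ZFSet.pair (num n) (num k)) p ∈ R)) :
    Reals N = RN {x : HC S W | zc x ∈ G} := by
  ext x
  rw [hN]
  constructor
  · rintro ⟨R, hR, h⟩
    have hI : In S (fun y : HC S W × ℕ × ℕ =>
        opair (opair (nm y.2.1) (nm y.2.2)) (Cd.code y.1) ∈ (⟨R, hR⟩ : S)) := by
      have h1 : In S (fun y : (ℕ × ℕ) × HC S W => (Cd.code y : S) ∈ (⟨R, hR⟩ : S)) :=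
        ⟨⟨R, hR⟩, fun t => Iff.rfl⟩
      exact (h1.comp (f := fun y : HC S W × ℕ × ℕ => ((y.2.1, y.2.2), y.1))
        (((IF.comp IF.fst IF.snd).pair (IF.comp IF.snd IF.snd)).pair IF.fst)).congr
        fun y => Iff.rfl
    refine ⟨ISet.mk hI, fun n k => (h n k).trans ?_⟩
    constructor
    · rintro ⟨p, hp, hpR⟩
      obtain ⟨y, _, rfl⟩ := (hP _).1 (hG.sub p hp)
      refine ⟨y, hp, ?_⟩
      show (opair (opair (nm n) (nm k)) (Cd.code y) : S).1 ∈ R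
      rw [Z.abs_opair hT, Z.abs_opair hT, Z.abs_nm hT, Z.abs_nm hT]
      exact hpR
    · rintro ⟨y, hy, hyR⟩
      refine ⟨zc y, hy, ?_⟩
      have h2 : (opair (opair (nm n) (nm k)) (Cd.code y) : S).1 ∈ R := hyR
      rw [Z.abs_opair hT, Z.abs_opair hT, Z.abs_nm hT, Z.abs_nm hT] at h2
      exact h2
  · rintro ⟨F, hF⟩
    have hI : In S (fun y : (ℕ × ℕ) × HC S W => (y.2, y.1.1, y.1.2) ∈ F) :=
      In.mem (IF.snd.pair ((IF.comp IF.fst IF.fst).pair (IF.comp IF.snd IF.fst))) (IF.const F)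
    refine ⟨(ISet.mk hI).cod.1, (ISet.mk hI).cod.2, fun n k => (hF n k).trans ?_⟩
    have key : ∀ y : HC S W, ZFSet.pair (ZFSet.pair (num n) (num k)) (zc y) ∈
        ((ISet.mk hI).cod.1 : ZFSet.{0}) ↔ (y, n, k) ∈ F := by
      intro y
      have h2 : (Cd.code ((n, k), y) : S) ∈ (ISet.mk hI).cod ↔ (y, n, k) ∈ F := ISet.mem_cod
      rw [← h2]
      show _ ↔ (opair (opair (nm n) (nm k)) (Cd.code y) : S).1 ∈ (ISet.mk hI).cod.1
      rw [Z.abs_opair hT, Z.abs_opair hT, Z.abs_nm hT, Z.abs_nm hT]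
      exact Iff.rfl
    constructor
    · rintro ⟨y, hy, hyF⟩
      exact ⟨zc y, hy, (key y).2 hyF⟩
    · rintro ⟨p, hp, hpR⟩
      obtain ⟨y, _, rfl⟩ := (hP _).1 (hG.sub p hp)
      exact ⟨y, hp, (key y).1 hpR⟩

end

/-- The main theorem from the ground model. -/
theorem main_of_ground (hgr : GroundStatement) : MainStatement := by
  obtain ⟨S, hT, hS, hZ, W, iW, iC, iO, c, hc, h3⟩ := hgr
  have := Fact.mk hc
  have : Countable S := hS
  have hw : WellFounded ((· < ·) : W → W → Prop) := Om1.wf S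
  obtain ⟨P, hP⟩ : ∃ P ∈ S, ∀ y, y ∈ P ↔ ∃ x ∈ QV (M := S) hw c, zc x = y := by
    refine ⟨(ISet.mk (In.qv (M := S) (c := c) (hw := hw))).cod.1,
      (ISet.mk (In.qv (M := S) (c := c) (hw := hw))).cod.2, fun y => ?_⟩
    constructor
    · intro hy
      have hy' : (⟨y, hT _ (ISet.mk (In.qv (M := S) (c := c) (hw := hw))).cod.2 y hy⟩ : S) ∈
        (ISet.mk (In.qv (M := S) (c := c) (hw := hw))).cod := hy
      obtain ⟨t, ht, h⟩ := ISet.mem_cod_iff.1 hy'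
      exact ⟨t, ht, congrArg Subtype.val h⟩
    · rintro ⟨x, hx, rfl⟩
      exact (ISet.mem_cod (M := S) (A := ISet.mk (In.qv (M := S) (c := c) (hw := hw)))
        (t := x)).2 hx
  obtain ⟨L, hL⟩ : ∃ L ∈ S, ∀ x y : HC S W, ZFSet.pair (zc x) (zc y) ∈ L ↔ QL c x y := by
    refine ⟨(ISet.mk (In.ql (M := S) (W := W) (c := c))).cod.1,
      (ISet.mk (In.ql (M := S) (W := W) (c := c))).cod.2, fun x y => ?_⟩
    have h2 : (Cd.code (x, y) : S) ∈ (ISet.mk (In.ql (M := S) (W := W) (c := c))).cod ↔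
        QL c x y := ISet.mem_cod
    rw [← h2]
    have h4 : (Cd.code (x, y) : S).1 = ZFSet.pair (zc x) (zc y) := by
      show (opair (Cd.code x) (Cd.code y) : S).1 = _
      rw [Z.abs_opair hT]
      rfl
    rw [← h4]
    exact Iff.rfl
  have hrefl : ∀ p ∈ P, ZFSet.pair p p ∈ L := by
    intro p hp
    obtain ⟨x, _, rfl⟩ := (hP.2 p).1 hp
    exact (hL.2 x x).2 (QL_refl x)
  have htrans : ∀ p ∈ P, ∀ q ∈ P, ∀ r ∈ P, ZFSet.pair p q ∈ L → ZFSet.pair q r ∈ L →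
      ZFSet.pair p r ∈ L := by
    intro p hp q hq r hr h1 h2
    obtain ⟨x, _, rfl⟩ := (hP.2 p).1 hp
    obtain ⟨y, _, rfl⟩ := (hP.2 q).1 hq
    obtain ⟨z, _, rfl⟩ := (hP.2 r).1 hr
    exact (hL.2 x z).2 (QL_trans ((hL.2 x y).1 h1) ((hL.2 y z).1 h2))
  obtain ⟨x₀, hx₀⟩ := QV_nonempty (M := S) (W := W) (hw := hw) (c := c)
  obtain ⟨G, hG, _⟩ := exists_generic hS hrefl htrans ((hP.2 _).2 ⟨x₀, hx₀, rfl⟩)
  obtain ⟨N, hNT, hNZ, _, hNR⟩ := forcing_theorem S hT hS hZ P hP.1 L hL.1 hrefl htrans G hG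
  have hQ : QGen hw c {x : HC S W | zc x ∈ G} := QGen.of_generic hT hP.2 hL.2 hG
  have hR : Reals N = RN {x : HC S W | zc x ∈ G} := Reals_eq_RN hT hP.2 hG hNR
  have hRA : RA (Reals N) := RA_Reals hNT
  have hRU : RU S W (Reals N) := by
    rw [hR]
    exact RN_RU hQ
  obtain ⟨Ef, key, w, e, hp⟩ := exists_pkg hQ
  rw [← hR] at hp
  have hK : SigP (Reals N) 3 (fun z => z ∈ KN c {x : HC S W | zc x ∈ G}) := by
    refine (coded_sig hc h3 hRU).congr fun z hz => ?_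
    show z ∈ RN _ ∧ (∃ y ∈ RN _, Cod c y z) ↔ _
    rw [← hR]
    exact ⟨fun h => h.2, fun h => ⟨hz, h⟩⟩
  refine ⟨N, hNT, hNZ, hp.separation hRA hK, fun n hn => ?_⟩
  rcases eq_or_lt_of_le hn with rfl | hn
  · exact hp.not_reduction_three hRA hK
  · exact hp.not_reduction hRA hw hK hn

end Pool.Agent.H.MP_a163f2_lc
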